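import Pool.Agent.Lib.MP_7b66ee_ag.Ht

/-! Values of nonconstant functions. -/

namespace Pool.Agent.Lib.MP_7b66ee_ag.Cst

open Filter WithZero
open scoped NNReal

universe u

variable {K E : Type u} [NontriviallyNormedField K] [Field E] [Algebra K E] (N : Nev K E)

lemma const_of_D [CharZero K] {x : E} (h : N.D x = 0) : ∃ c, x = algebraMap K E c := by
  have key : ∀ y : E, N.D y = 0 → N.a 0 (N.b 0) y ≤ 1 → ∃ c, y = algebraMap K E c :=
    fun y h0 h1 => by
      obtain ⟨c, hc⟩ := N.res _ _ y h1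
      refine ⟨c, sub_eq_zero.1 (N.eq_zero (N.b 0) fun i => ?_)⟩
      cases i with
      | zero => exact hc
      | succ i =>
        rw [Function.iterate_succ_apply, map_sub, h0, Derivation.map_algebraMap, sub_zero,
          Function.iterate_fixed (map_zero _), map_zero]
        exact zero_lt_one
  rcases le_total (N.a 0 (N.b 0) x) 1 with h1 | h1
  · exact key x h h1
  · obtain ⟨c, hc⟩ := key x⁻¹ (by rw [Derivation.leibniz_inv, h, smul_zero])
      (by rw [map_inv₀]; exact inv_le_one_of_one_le₀ h1)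
    exact ⟨c⁻¹, by rw [map_inv₀, ← hc, inv_inv]⟩

lemma pl_sub {n : ℕ} (p : N.P n) (x : E) (c : K) :
    N.pl p (x - algebraMap K E c) = N.pl p x := by
  rcases le_or_gt (N.a n p x) 1 with h | h
  · have z : ∀ y, N.a n p y ≤ 1 → N.pl p y = 0 := fun y hy =>
      le_antisymm (by simpa using N.pl_le p (k := 0) hy le_rfl) (N.pl_nonneg p _)
    rw [z _ h, z _ ((N.a n p).map_sub_le h (N.aK n p c))]
  · rw [Nev.pl, Nev.pl, (N.a n p).map_sub_eq_of_lt_left ((N.aK n p c).trans_lt h)]

lemma ht_sub (n : ℕ) (x : E) (c : K) : N.ht n (x - algebraMap K E c) = N.ht n x := by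
  simp only [Nev.ht, pl_sub]

lemma const_of_bdd [IsUltrametricDist K] {x : E} {C : ℝ} (h1 : ∀ n, N.ht n x ≤ C)
    (h2 : ∀ n b, (N.gs n b x : ℝ) ≤ C) : ∃ c, x = algebraMap K E c := by
  refine N.mem_of_ht fun c hc => ?_
  obtain ⟨C', hC⟩ := N.ht_inv (sub_ne_zero.2 hc) ⟨max C ‖c‖, fun n b => by
    refine (NNReal.coe_le_coe.2 ((N.gs n b).map_sub x _)).trans ?_
    rw [N.gsK, NNReal.coe_max]
    exact max_le_max (h2 n b) le_rfl⟩
  refine ⟨max C (C + C'), fun n => ⟨(h1 n).trans (le_max_left _ _), (hC n).trans ?_⟩⟩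
  rw [ht_sub]
  exact (add_le_add_left (h1 n) _).trans (le_max_right _ _)

lemma liouville [IsUltrametricDist K] {x : E} (h1 : ∀ n p, N.a n p x ≤ 1)
    (h2 : ∀ n b, N.gs n b x ≤ 1) : ∃ c, x = algebraMap K E c := by
  refine const_of_bdd N (C := 1) (fun n => le_trans (le_of_eq ?_) zero_le_one) h2
  refine finsum_eq_zero_of_forall_eq_zero fun p => ?_
  rw [le_antisymm (by simpa using N.pl_le p (k := 0) (h1 n p) le_rfl) (N.pl_nonneg p _), mul_zero]

lemma gs_exc [IsUltrametricDist K] (hK : ∀ m : ℕ, m ≠ 0 → ‖(m : K)‖ = 1) (n : ℕ) (b : Bool)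
    (x : E) : {c : ℕ | N.gs n b (x - algebraMap K E c) ≠ max (N.gs n b x) 1}.Finite := by
  have one : ∀ c : ℕ, c ≠ 0 → N.gs n b (algebraMap K E c) = 1 := fun c hc => by
    rw [N.gsK]; exact NNReal.coe_injective (hK c hc)
  have lt : ∀ c : ℕ, c ≠ 0 → N.gs n b (x - algebraMap K E c) ≠ max (N.gs n b x) 1 →
      N.gs n b (x - algebraMap K E c) < 1 := fun c hc h => by
    rcases lt_trichotomy (N.gs n b x) 1 with e | e | e
    · rw [(N.gs n b).map_sub_eq_of_lt_right (by rwa [one c hc]), one c hc, max_eq_right e.le] at h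
      exact absurd rfl h
    · rw [e, max_self] at h
      exact lt_of_le_of_ne ((N.gs n b).map_sub_le e.le (one c hc).le) h
    · rw [(N.gs n b).map_sub_eq_of_lt_left (by rwa [one c hc]), max_eq_left e.le] at h
      exact absurd rfl h
  have sub : {c : ℕ | c ≠ 0 ∧ N.gs n b (x - algebraMap K E c) < 1}.Subsingleton := by
    have : ∀ c c' : ℕ, c < c' → N.gs n b (x - algebraMap K E c) < 1 →
        N.gs n b (x - algebraMap K E c') < 1 → False := fun c c' h h1 h2 => by
      have := (N.gs n b).map_sub_lt h1 h2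
      rw [sub_sub_sub_cancel_left, ← map_sub, ← Nat.cast_sub h.le, one _ (by omega)] at this
      exact lt_irrefl _ this
    intro c hc c' hc'
    rcases lt_trichotomy c c' with h | h | h
    exacts [(this _ _ h hc.2 hc'.2).elim, h, (this _ _ h hc'.2 hc.2).elim]
  refine (sub.finite.insert 0).subset fun c hc => ?_
  by_cases c0 : c = 0
  exacts [Or.inl c0, Or.inr ⟨c0, lt c c0 hc⟩]

lemma many [IsUltrametricDist K] (hK : ∀ m : ℕ, m ≠ 0 → ‖(m : K)‖ = 1) {x : E}
    (hx : ∀ c, x ≠ algebraMap K E c) :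
    ∃ n, {c : ℕ | ∃ p, N.a n p (x - algebraMap K E c) < 1}.Infinite := by
  by_contra hc
  push Not at hc
  let g : ℕ → Bool → ℝ := fun n b => Real.log (max (N.gs n b x) 1 : ℝ≥0)
  have g0 : ∀ n b, 0 ≤ g n b := fun n b =>
    Real.log_nonneg (NNReal.one_le_coe.2 (le_max_right _ _))
  have ev : ∀ n, ∀ᶠ c : ℕ in cofinite, Real.log (N.gs n true (x - algebraMap K E c)) +
      Real.log (N.gs n false (x - algebraMap K E c)) +
      ∑ᶠ p, N.wt n p * (log (N.a n p (x - algebraMap K E c)) : ℤ) =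
        g n true + g n false + N.ht n x := fun n => by
    filter_upwards [(hc n).compl_mem_cofinite, (gs_exc N hK n true x).compl_mem_cofinite,
      (gs_exc N hK n false x).compl_mem_cofinite] with c h1 h2 h3
    rw [not_not.1 h2, not_not.1 h3, ← ht_sub N n x c, Nev.ht]
    congr 1
    refine finsum_congr fun p => ?_
    rw [Nev.pl, max_eq_left]
    exact_mod_cast le_log_of_exp_le (not_lt.1 fun e => h1 ⟨p, e⟩)
  have eq : ∀ n, g n true + g n false + N.ht n x = g 0 true + g 0 false + N.ht 0 x := fun n => by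
    obtain ⟨c, h1, h2⟩ := ((ev n).and (ev 0)).exists
    obtain ⟨κ, hκ⟩ := N.jen _ (sub_ne_zero.2 (hx c))
    rw [← h1, ← h2, hκ, hκ]
  obtain ⟨c, e⟩ := const_of_bdd N (x := x) (C := Real.exp (g 0 true + g 0 false + N.ht 0 x))
    (fun n => by linarith [eq n, g0 n true, g0 n false,
      Real.add_one_le_exp (g 0 true + g 0 false + N.ht 0 x)]) fun n b => by
      have : g n b ≤ g 0 true + g 0 false + N.ht 0 x := by
        cases b <;> linarith [eq n, g0 n true, g0 n false, N.ht_nonneg n x]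
      exact (NNReal.coe_le_coe.2 (le_max_left _ 1)).trans
        ((Real.le_exp_log _).trans (Real.exp_le_exp.2 this))
  exact hx c e

variable {n : ℕ} (p : N.P n)

/-- the value of x at p is c -/
def Vl (x : E) (c : K) : Prop := N.a n p (x - algebraMap K E c) < 1

variable {N p}

lemma Vl.le {x : E} {c : K} (h : Vl N p x c) : N.a n p x ≤ 1 := by
  simpa using (N.a n p).map_add_le (le_of_lt h) (N.aK n p c)

lemma Vl.c (c : K) : Vl N p (algebraMap K E c) c := by simp [Vl]

lemma Vl.add {x y : E} {c e : K} (h : Vl N p x c) (h' : Vl N p y e) :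
    Vl N p (x + y) (c + e) := by
  rw [Vl, map_add, add_sub_add_comm]
  exact (N.a n p).map_add_lt h h'

lemma Vl.mul {x y : E} {c e : K} (h : Vl N p x c) (h' : Vl N p y e) :
    Vl N p (x * y) (c * e) := by
  rw [Vl, map_mul, show x * y - algebraMap K E c * algebraMap K E e =
    x * (y - algebraMap K E e) + algebraMap K E e * (x - algebraMap K E c) by ring]
  refine (N.a n p).map_add_lt ?_ ?_ <;> rw [map_mul]
  exacts [(mul_le_of_le_one_left' h.le).trans_lt h', (mul_le_of_le_one_left' (N.aK n p e)).trans_lt h]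

lemma Vl.pow {x : E} {c : K} (h : Vl N p x c) (i : ℕ) : Vl N p (x ^ i) (c ^ i) := by
  induction i with
  | zero => simp [Vl]
  | succ i ih => rw [pow_succ, pow_succ]; exact ih.mul h

lemma Vl.sum {ι : Type*} (s : Finset ι) {x : ι → E} {c : ι → K} (h : ∀ i, Vl N p (x i) (c i)) :
    Vl N p (∑ i ∈ s, x i) (∑ i ∈ s, c i) := by
  classical
  induction s using Finset.induction_on with
  | empty => simp [Vl]
  | insert i s hi ih => rw [Finset.sum_insert hi, Finset.sum_insert hi]; exact (h i).add ih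

end Pool.Agent.Lib.MP_7b66ee_ag.Cst
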