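import Pool.Agent.Lib.MP_7b66ee_ag.Cst.Gam
import Pool.Agent.Lib.MP_7b66ee_ag.AnC

/-! An approximate algebraic relation between two meromorphic functions. -/

namespace Pool.Agent.Lib.MP_7b66ee_ag.Cst

open Filter Topology IsUltrametricDist Kob

universe u

noncomputable section

variable {K : Type u} [NontriviallyNormedField K] {r : ℝ}

/-- Laurent polynomials with exponents between -N and N -/
def V (r : ℝ) (N : ℕ) : Submodule K (An K r) :=
  Submodule.span K (mono r '' Finset.Icc (-N : ℤ) N)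

lemma V_mono {N M : ℕ} (h : N ≤ M) : V (K := K) r N ≤ V r M :=
  Submodule.span_mono (Set.image_mono fun i hi => by
    simp only [Finset.coe_Icc, Set.mem_Icc] at hi ⊢; omega)

lemma mono_mem {N : ℕ} {i : ℤ} (h1 : -N ≤ i) (h2 : i ≤ N) : mono r i ∈ V (K := K) r N :=
  Submodule.subset_span ⟨i, by simp [h1, h2], rfl⟩

lemma V_mul {N M : ℕ} {f g : An K r} (hf : f ∈ V r N) (hg : g ∈ V r M) : f * g ∈ V r (N + M) := by
  have := Submodule.mul_mem_mul hf hg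
  rw [V, V, Submodule.span_mul_span] at this
  refine Submodule.span_le.2 ?_ this
  rintro _ ⟨_, ⟨i, hi, rfl⟩, _, ⟨j, hj, rfl⟩, rfl⟩
  simp only [Finset.coe_Icc, Set.mem_Icc] at hi hj
  simp only [← mono_add]
  exact mono_mem (by push_cast; omega) (by push_cast; omega)

lemma V_pow {N : ℕ} {f : An K r} (hf : f ∈ V r N) (i : ℕ) : f ^ i ∈ V r (i * N) := by
  induction i with
  | zero => simpa [mono_zero] using mono_mem (K := K) (r := r) (N := 0) (i := 0) le_rfl le_rfl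
  | succ i ih => rw [pow_succ, add_mul, one_mul]; exact V_mul ih hf

lemma lau_V {p : An K r} (hp : p.1 ∈ Lau K r) : ∃ N, p ∈ V r N := by
  refine lau_add (Q := fun p => ∃ N, p ∈ V r N) (fun c => ⟨0, ?_⟩)
    ⟨1, mono_one (K := K) (r := r) ▸ mono_mem (by simp) (by simp)⟩
    ⟨1, mono_neg (K := K) (r := r) ▸ mono_mem (by simp) (by simp)⟩ ?_ ?_ p hp
  · rw [Algebra.algebraMap_eq_smul_one, ← mono_zero]
    exact Submodule.smul_mem _ _ (mono_mem le_rfl le_rfl)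
  · rintro f g ⟨N, hN⟩ ⟨M, hM⟩
    exact ⟨N + M, add_mem (V_mono (by omega) hN) (V_mono (by omega) hM)⟩
  · rintro f g ⟨N, hN⟩ ⟨M, hM⟩
    exact ⟨_, V_mul hN hM⟩

lemma lau_dep {f g h : An K r} (hf : f.1 ∈ Lau K r) (hg : g.1 ∈ Lau K r) (hh : h.1 ∈ Lau K r) :
    ∃ (M : ℕ) (l : Fin M × Fin M → K) (i₀ : Fin M × Fin M), l i₀ = 1 ∧ (∀ i, ‖l i‖ ≤ 1) ∧
      ∀ z, h.1 z ≠ 0 → ∑ i, l i * ((f.1 z / h.1 z) ^ (i.1 : ℕ) * (g.1 z / h.1 z) ^ (i.2 : ℕ)) = 0 := by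
  classical
  obtain ⟨N₁, h1⟩ := lau_V hf
  obtain ⟨N₂, h2⟩ := lau_V hg
  obtain ⟨N₃, h3⟩ := lau_V hh
  obtain ⟨N, n1, n2, n3⟩ : ∃ N, N₁ ≤ N ∧ N₂ ≤ N ∧ N₃ ≤ N :=
    ⟨N₁ + N₂ + N₃, by omega, by omega, by omega⟩
  obtain ⟨M, hM⟩ : ∃ M, M = 4 * N + 2 := ⟨_, rfl⟩
  have mem : ∀ i : Fin M × Fin M, f ^ (i.1 : ℕ) * g ^ (i.2 : ℕ) * h ^ (2 * M - i.1 - i.2) ∈
      V r (2 * M * N) := fun i => by
    have := V_mul (V_mul (V_pow (V_mono n1 h1) i.1) (V_pow (V_mono n2 h2) i.2))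
      (V_pow (V_mono n3 h3) (2 * M - i.1 - i.2))
    rwa [← add_mul, ← add_mul, show (i.1 : ℕ) + i.2 + (2 * M - i.1 - i.2) = 2 * M by omega] at this
  have fd : Module.Finite K (V (K := K) r (2 * M * N)) :=
    Module.Finite.span_of_finite K ((Finset.finite_toSet _).image _)
  have nl : ¬LinearIndependent K fun i : Fin M × Fin M =>
      f ^ (i.1 : ℕ) * g ^ (i.2 : ℕ) * h ^ (2 * M - i.1 - i.2) := fun hl => by
    have a := (finrank_span_eq_card hl).ge.trans (Submodule.finrank_mono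
      (Submodule.span_le.2 (Set.range_subset_iff.2 mem)))
    have b : Module.finrank K (V (K := K) r (2 * M * N)) ≤
        (Finset.Icc (-(2 * M * N : ℕ) : ℤ) (2 * M * N : ℕ)).card := by
      rw [V, ← Finset.coe_image]
      exact (finrank_span_finset_le_card _).trans Finset.card_image_le
    rw [Int.card_Icc] at b
    simp only [Fintype.card_prod, Fintype.card_fin] at a
    have c : M * M = 2 * (2 * M * N) + 2 * M := by rw [hM]; ring
    omega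
  obtain ⟨t, ht, i₁, hi₁⟩ := Fintype.not_linearIndependent_iff.1 nl
  obtain ⟨i₀, -, hi₀⟩ := Finset.exists_max_image Finset.univ (fun i => ‖t i‖) ⟨i₁, by simp⟩
  have t0 : t i₀ ≠ 0 := norm_pos_iff.1 ((norm_pos_iff.2 hi₁).trans_le (hi₀ i₁ (by simp)))
  refine ⟨M, fun i => t i / t i₀, i₀, div_self t0, fun i => ?_, fun z hz => ?_⟩
  · rw [norm_div]; exact div_le_one_of_le₀ (hi₀ i (by simp)) (norm_nonneg _)
  have e := congrArg ((Pi.evalAlgHom K _ z).comp (An K r).val) ht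
  simp only [map_sum, map_smul, map_mul, map_pow, map_zero, smul_eq_mul] at e
  change ∑ i, t i * (f.1 z ^ (i.1 : ℕ) * g.1 z ^ (i.2 : ℕ) * h.1 z ^ (2 * M - i.1 - i.2)) = 0 at e
  refine mul_right_cancel₀ (mul_ne_zero t0 (pow_ne_zero (2 * M) hz)) ?_
  rw [zero_mul, Finset.sum_mul, ← e]
  refine Finset.sum_congr rfl fun i _ => ?_
  have : h.1 z ^ (2 * M) = h.1 z ^ (i.1 : ℕ) * h.1 z ^ (i.2 : ℕ) * h.1 z ^ (2 * M - i.1 - i.2) := by
    rw [← pow_add, ← pow_add]; congr 1; omega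
  rw [this, div_pow, div_pow]
  field_simp

variable [IsUltrametricDist K] [IsAlgClosed K] [CompleteSpace K]

lemma small_lim (hr : 1 ≤ r) {q Q : Ann K r} (hq : 1 ≤ ‖q.1‖) (hQ : ‖q.1‖ < ‖Q.1‖) {u : An K r}
    (u0 : u ≠ 0) (w : ℕ → Ann K r) (hw1 : ∀ n, In q (w n).1)
    (hw2 : ∀ n : ℕ, ‖u.1 (w n)‖ < 1 / ((n : ℝ) + 1)) : ∃ (a : K) (φ : ℕ → ℕ), In q a ∧
      StrictMono φ ∧ Tendsto ((fun n => (w n).1) ∘ φ) atTop (𝓝 a) := by
  obtain ⟨m, hm, hm'⟩ := G_low hr u0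
  have ap : ∀ ε, 0 < ε → ε < m → ∃ p : An K r, p.1 ∈ Lau K r ∧ (∀ z, ‖u.1 z - p.1 z‖ ≤ ε) ∧
      p ≠ 0 ∧ ∀ w, G w p = G w u := fun ε h1 h2 => by
    obtain ⟨p, hp, h3⟩ := approx u h1
    have e := fun w => G_eq (q := w) h3 (h2.trans_le (hm' w))
    refine ⟨p, hp, h3, fun h => ?_, e⟩
    have := e q
    rw [h, G_zero] at this
    linarith [hm' q]
  have t := tendsto_one_div_add_atTop_nhds_zero_nat (𝕜 := ℝ)
  have hl : 0 < Real.log ‖Q.1‖ - Real.log ‖q.1‖ := sub_pos.2 (Real.log_lt_log (by linarith) hQ)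
  obtain ⟨d, hd⟩ := exists_nat_ge (Phi hr Q u / (Real.log ‖Q.1‖ - Real.log ‖q.1‖))
  have tb : TotallyBounded (Set.range fun n => (w n).1) := Metric.totallyBounded_iff.2 fun ε hε => by
    set δ := min 1 (ε / r)
    have δ0 : 0 < δ := by positivity
    have δ1 : δ ≤ 1 := min_le_left _ _
    have δ2 : δ * r ≤ ε := (le_div_iff₀ (by linarith)).1 (min_le_right _ _)
    have m1 : m * δ ^ d ≤ m := mul_le_of_le_one_right hm.le (pow_le_one₀ δ0.le δ1)
    have m0 : 0 < m * δ ^ d := by positivity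
    obtain ⟨p, hp, h3, p0, e⟩ := ap (m * δ ^ d / 3) (by positivity) (by linarith)
    obtain ⟨T, h4, -, h5⟩ := roots hr hq hQ.le p hp p0
    have hT : T.card ≤ d := by
      simp only [Phi, e] at h4
      exact_mod_cast ((le_div_iff₀ hl).2 h4).trans hd
    obtain ⟨N, hN⟩ := eventually_atTop.1 (t.eventually (gt_mem_nhds (div_pos m0 three_pos)))
    refine ⟨{a | a ∈ T} ∪ (fun n => (w n).1) '' Set.Iio N,
      T.finite_toSet.union ((Set.finite_Iio N).image _), ?_⟩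
    rintro _ ⟨n, rfl⟩
    simp only [Set.mem_iUnion]
    rcases lt_or_ge n N with h | h
    · exact ⟨_, Or.inr ⟨n, h, rfl⟩, Metric.mem_ball_self hε⟩
    by_contra hc
    push Not at hc
    have a := h5 (w n) (hw1 n) δ δ0 δ1 fun a ha => δ2.trans (by
      simpa [dist_eq_norm] using hc a (Or.inl ha))
    have b : m * δ ^ d ≤ G (w n) p * δ ^ T.card := mul_le_mul (e _ ▸ hm' _)
      (pow_le_pow_of_le_one δ0.le δ1 hT) (by positivity) (G_nonneg _ _)
    linarith [norm_le_norm_add_norm_sub (u.1 (w n)) (p.1 (w n)), h3 (w n), hN n h, hw2 n]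
  obtain ⟨a, -, φ, hφ, ha⟩ := (tb.closure.isCompact_of_isClosed isClosed_closure).tendsto_subseq
    fun n => subset_closure ⟨n, rfl⟩
  have hin : In q a := ⟨ge_of_tendsto' ha.norm fun n => (hw1 _).1,
    le_of_tendsto' ha.norm fun n => (hw1 _).2⟩
  exact ⟨a, φ, hin, hφ, ha⟩

lemma an_cont (h : An K r) {w : ℕ → Ann K r} {a : Ann K r}
    (ha : Tendsto (fun n => (w n).1) atTop (𝓝 a.1)) :
    Tendsto (fun n => h.1 (w n)) atTop (𝓝 (h.1 a)) := by
  obtain ⟨C, hC⟩ := lip h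
  rw [tendsto_iff_norm_sub_tendsto_zero] at ha ⊢
  exact squeeze_zero (fun _ => norm_nonneg _) (fun n => hC _ _) (by simpa using ha.const_mul C)

omit [IsUltrametricDist K] [IsAlgClosed K] [CompleteSpace K] in
lemma no_lim {c A B : ℕ → K} {a b : K} (hA : Tendsto A atTop (𝓝 a)) (hB : Tendsto B atTop (𝓝 b))
    (b0 : b ≠ 0) (e : ∀ n, A n = c n * B n) (hc : ∀ n, ‖c (n + 1) - c n‖ = 1) : False := by
  have h : Tendsto c atTop (𝓝 (a / b)) := (hA.div hB b0).congr'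
    ((hB.eventually_ne b0).mono fun n hn => by simp [e n, hn])
  have := (((tendsto_add_atTop_iff_nat 1).2 h).sub h).norm
  simp only [hc, sub_self, norm_zero] at this
  exact one_ne_zero (tendsto_nhds_unique tendsto_const_nhds this)

variable [hr : Fact (1 ≤ r)] {q Q : Ann K r} (hq : 1 ≤ ‖q.1‖) (hQ : ‖q.1‖ < ‖Q.1‖)
include hq hQ

lemma val_at (z : {a // In q a}) {y : Fr K r} {c : K} (hy : pv hq hQ z (y - algebraMap K _ c) < 1)
    {g h : An K r} (e : y * algebraMap _ _ h = algebraMap _ _ g) :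
    g.1 ⟨z.1, z.2.mem⟩ = c * h.1 ⟨z.1, z.2.mem⟩ := by
  by_contra hc
  have := pv_one hq hQ z (h := g - algebraMap K _ c * h) (sub_ne_zero.2 hc)
  rw [map_sub, map_mul, ← e, ← sub_mul, map_mul, ← IsScalarTower.algebraMap_apply] at this
  exact absurd this ((mul_le_of_le_one_right' (pv_le ..)).trans_lt hy).ne

theorem dep_fr (u w : Fr K r) (p : ℕ → {a // In q a}) (c e : ℕ → K)
    (hu : ∀ j, pv hq hQ (p j) (u - algebraMap K _ (c j)) < 1)
    (hw : ∀ j, pv hq hQ (p j) (w - algebraMap K _ (e j)) < 1)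
    (hc : ∀ i j, i ≠ j → ‖c i - c j‖ = 1) (h1 : ∀ j, ‖c j‖ ≤ 1 ∧ ‖e j‖ ≤ 1) :
    ∃ (M : ℕ) (l : Fin M × Fin M → K) (i₀ : Fin M × Fin M), l i₀ = 1 ∧
      {j | ‖∑ i, l i * (c j ^ (i.1 : ℕ) * e j ^ (i.2 : ℕ))‖ < 1}.Infinite := by
  have ne : ∀ {h : An K r}, h ≠ 0 → algebraMap _ (Fr K r) h ≠ 0 := fun h0 =>
    (map_ne_zero_iff _ (IsFractionRing.injective _ _)).2 h0
  obtain ⟨g, g', h, h0, e1, e2⟩ : ∃ g g' h : An K r, h ≠ 0 ∧
      u * algebraMap _ _ h = algebraMap _ _ g ∧ w * algebraMap _ _ h = algebraMap _ _ g' := by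
    obtain ⟨g₁, h₁, a1, rfl⟩ := frac u
    obtain ⟨g₂, h₂, a2, rfl⟩ := frac w
    have b1 := ne a1
    have b2 := ne a2
    refine ⟨g₁ * h₂, g₂ * h₁, h₁ * h₂, mul_ne_zero a1 a2, ?_, ?_⟩ <;>
      simp only [map_mul] <;> field_simp
  let z : ℕ → Ann K r := fun j => ⟨(p j).1, (p j).2.mem⟩
  obtain ⟨μ, μ0, hμ⟩ : ∃ μ > 0, {j | μ ≤ ‖h.1 (z j)‖}.Infinite := by
    by_contra hn
    push Not at hn
    obtain ⟨φ, hφ, h2⟩ := extraction_forall_of_eventually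
      (P := fun n j => ‖h.1 (z j)‖ < 1 / ((n : ℝ) + 1)) fun n => by
        rw [← Nat.cofinite_eq_atTop, eventually_cofinite]
        simpa only [not_lt] using hn (1 / ((n : ℝ) + 1)) (by positivity)
    obtain ⟨a, ψ, ha, hψ, h3⟩ := small_lim hr.out hq hQ h0 (fun n => z (φ n))
      (fun n => (p (φ n)).2) h2
    have ct := fun k : An K r => an_cont k (w := fun n => z (φ (ψ n))) (a := ⟨a, ha.mem⟩) h3
    have hc' : ∀ n, ‖c (φ (ψ (n + 1))) - c (φ (ψ n))‖ = 1 := fun n =>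
      hc _ _ (hφ (hψ n.lt_succ_self)).ne'
    by_cases hu1 : pv hq hQ ⟨a, ha⟩ u ≤ 1
    · obtain ⟨k, l, l0, e3⟩ := pv_rep hq hQ ⟨a, ha⟩ hu1
      have l1 : l ≠ 0 := fun e => l0 (by rw [e]; rfl)
      exact no_lim (ct k) (ct l) l0 (fun n => val_at hq hQ _ (hu _)
        (by rw [e3, div_mul_cancel₀ _ (ne l1)])) hc'
    · have u0 : u ≠ 0 := fun e => hu1 (by simp [e])
      obtain ⟨k, l, l0, e3⟩ := pv_rep hq hQ ⟨a, ha⟩ (y := u⁻¹) (by
        rw [map_inv₀]; exact inv_le_one_of_one_le₀ (not_le.1 hu1).le)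
      have l1 : l ≠ 0 := fun e => l0 (by rw [e]; rfl)
      have e4 : ∀ j, l.1 (z j) = c j * k.1 (z j) := fun j => val_at hq hQ _ (hu j) (by
        rw [eq_div_iff (ne l1)] at e3
        rw [← e3, mul_inv_cancel_left₀ u0])
      refine no_lim (ct l) (ct k) (fun k0 => l0 (norm_le_zero_iff.1 ?_)) (fun n => e4 _) hc'
      rw [← norm_zero (E := K), ← k0]
      refine le_of_tendsto_of_tendsto' (ct l).norm (ct k).norm fun n => ?_
      rw [e4, norm_mul]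
      exact mul_le_of_le_one_left (norm_nonneg _) (h1 _).1
  obtain ⟨s, s1, s2⟩ := approx g (half_pos μ0)
  obtain ⟨s', s1', s2'⟩ := approx g' (half_pos μ0)
  obtain ⟨t, t1, t2⟩ := approx h (half_pos μ0)
  obtain ⟨M, l, i₀, l1, l2, l3⟩ := lau_dep s1 s1' t1
  refine ⟨M, l, i₀, l1, hμ.mono fun j (hj : μ ≤ _) => ?_⟩
  have tn : ‖t.1 (z j)‖ = ‖h.1 (z j)‖ := neq_of_sub ((t2 _).trans_lt (by linarith))
  have t0 : 0 < ‖t.1 (z j)‖ := by linarith
  have cl : ∀ {g s : An K r} {c : K}, g.1 (z j) = c * h.1 (z j) → ‖c‖ ≤ 1 →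
      ‖g.1 (z j) - s.1 (z j)‖ ≤ μ / 2 → ‖c - s.1 (z j) / t.1 (z j)‖ ≤ 1 / 2 := by
    intro g s c a1 a2 a3
    have := norm_pos_iff.1 t0
    rw [show c - s.1 (z j) / t.1 (z j) = ((g.1 (z j) - s.1 (z j)) -
      c * (h.1 (z j) - t.1 (z j))) / t.1 (z j) by rw [a1]; field_simp; ring, norm_div,
      div_le_iff₀ t0]
    refine ((sub_le_max _ _).trans (max_le a3 ?_)).trans (by linarith)
    rw [norm_mul]
    exact (mul_le_of_le_one_left (norm_nonneg _) a2).trans (t2 _)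
  have pw : ∀ {c x : K}, ‖c‖ ≤ 1 → ‖c - x‖ ≤ 1 / 2 → ∀ i : ℕ,
      ‖x ^ i‖ ≤ 1 ∧ ‖c ^ i - x ^ i‖ ≤ 1 / 2 := fun {c x} a1 a2 i => by
    have x1 : ‖x‖ ≤ 1 := by
      rw [show x = c - (c - x) by ring]
      exact (sub_le_max _ _).trans (max_le a1 (by linarith))
    have := pow_sub_le a1 x1 i
    rw [mul_one, one_pow, mul_one] at this
    exact ⟨by rw [norm_pow]; exact pow_le_one₀ (norm_nonneg _) x1, this.trans a2⟩
  have x1 := pw (h1 j).1 (cl (val_at hq hQ _ (hu j) e1) (h1 j).1 (s2 _))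
  have x2 := pw (h1 j).2 (cl (val_at hq hQ _ (hw j) e2) (h1 j).2 (s2' _))
  change ‖_‖ < 1
  rw [← sub_zero (Finset.sum _ _), ← l3 (z j) (norm_pos_iff.1 t0), ← Finset.sum_sub_distrib]
  refine (norm_sum_le_of_forall_le_of_nonneg (C := 1 / 2) (by norm_num) fun i _ => ?_).trans_lt
    (by norm_num)
  rw [← mul_sub, norm_mul]
  refine (mul_le_of_le_one_left (norm_nonneg _) (l2 i)).trans ?_
  rw [show ∀ a b x y : K, a * b - x * y = (a - x) * b + x * (b - y) from fun _ _ _ _ => by ring]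
  refine (norm_add_le_max _ _).trans (max_le ?_ ?_) <;> rw [norm_mul]
  · refine (mul_le_of_le_one_right (norm_nonneg _) ?_).trans (x1 _).2
    rw [norm_pow]; exact pow_le_one₀ (norm_nonneg _) (h1 j).2
  · exact (mul_le_of_le_one_left (norm_nonneg _) (x1 _).1).trans (x2 _).2

end

end Pool.Agent.Lib.MP_7b66ee_ag.Cst
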