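import Pool.Agent.Lib.MP_7b66ee_ag.Cst.Del
import Pool.Agent.Lib.MP_7b66ee_ag.Cst.Dep

/-! Value distribution data with derivations of the constants. -/

namespace Pool.Agent.Lib.MP_7b66ee_ag.Cst

open Filter Topology WithZero Kob
open scoped NNReal

universe u

/-- value distribution data with two more properties -/
structure Nx (K E : Type u) [NormedField K] [Field E] [Algebra K E] extends Nev K E where
  dep : ∀ (u w : E) (n : ℕ) (p : ℕ → P n) (c e : ℕ → K),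
    (∀ j, a n (p j) (u - algebraMap K E (c j)) < 1) →
    (∀ j, a n (p j) (w - algebraMap K E (e j)) < 1) →
    (∀ i j, i ≠ j → ‖c i - c j‖ = 1) → (∀ j, ‖c j‖ ≤ 1 ∧ ‖e j‖ ≤ 1) →
    ∃ (M : ℕ) (l : Fin M × Fin M → K) (i₀ : Fin M × Fin M), l i₀ = 1 ∧
      {j | ‖∑ i, l i * (c j ^ (i.1 : ℕ) * e j ^ (i.2 : ℕ))‖ < 1}.Infinite
  der : ∀ (T : Finset E) (n₀ : ℕ) (p₀ : P n₀), ∃ b : ℕ → K,
    ∀ (L : Subfield K) (d : Derivation ℤ K K) (C : ℝ), 0 < C → (∀ j, b j ∈ L) → Bd L d C →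
    ∃ (R : Subfield E) (δ : E → E) (t : E) (l : K), (∀ x ∈ T, x ∈ R) ∧
      (∀ c ∈ L, algebraMap K E c ∈ R ∧ δ (algebraMap K E c) = algebraMap K E (d c)) ∧
      (∀ x ∈ R, ∀ y ∈ R, δ (x + y) = δ x + δ y ∧ δ (x * y) = x * δ y + y * δ x) ∧
      (∀ x ∈ R, ∀ n b, (gs n b (δ x) : ℝ) ≤ C * gs n b x) ∧
      (∀ x ∈ R, ∀ n p, a n p x ≤ 1 → a n p (δ x) ≤ 1) ∧
      t ∈ R ∧ a n₀ p₀ t = exp (-1) ∧ a n₀ p₀ (δ t + algebraMap K E l * D t) < 1

variable {K : Type u} [NontriviallyNormedField K] [IsUltrametricDist K] [IsAlgClosed K]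
  [CompleteSpace K] (hK : ∀ m : ℕ, m ≠ 0 → ‖(m : K)‖ = 1)
include hK

lemma an_cnt {r : ℝ} (h : An K r) : ∃ B : Set K, B.Countable ∧ ∀ (L : Subfield K)
    (D : Derivation ℤ K K) (C : ℝ), 0 < C → Bd L D C → B ⊆ L → ∃ h', Gm L D r h h' := by
  choose p p1 p2 using fun n : ℕ => approx h (show 0 < 1 / ((n : ℝ) + 1) by positivity)
  choose T T1 T2 using fun n => lau_fin (p1 n)
  refine ⟨⋃ n, T n, Set.countable_iUnion fun n => (T1 n).countable, fun L D C hC hD hL =>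
    Gm.exi hK hC hD fun ε hε => ?_⟩
  obtain ⟨n, hn⟩ := exists_nat_one_div_lt hε
  obtain ⟨p', h⟩ := T2 n L D ((Set.subset_iUnion T n).trans hL)
  exact ⟨_, _, h, fun z => (p2 n z).trans hn.le⟩

lemma fr_cnt {r : ℝ} [Fact (1 ≤ r)] (y : Fr K r) : ∃ B : Set K, B.Countable ∧ ∀ (L : Subfield K)
    (D : Derivation ℤ K K) (C : ℝ), 0 < C → Bd L D C → B ⊆ L → ∃ x', Dl L D r (Jr K r y) x' := by
  obtain ⟨g, h, -, rfl⟩ := frac y
  obtain ⟨A, a1, a2⟩ := an_cnt hK g
  obtain ⟨B, b1, b2⟩ := an_cnt hK h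
  refine ⟨A ∪ B, a1.union b1, fun L D C hC hD hL => ?_⟩
  obtain ⟨g', hg⟩ := a2 L D C hC hD (Set.subset_union_left.trans hL)
  obtain ⟨h', hh⟩ := b2 L D C hC hD (Set.subset_union_right.trans hL)
  obtain ⟨y', hy⟩ := hh.dl.inv
  exact ⟨_, by rw [map_div₀, Jr_jr, Jr_jr, div_eq_mul_inv]; exact hg.dl.mul hy⟩

lemma exists_del (r : ℕ → ℝ) [hr : ∀ n, Fact (1 ≤ r n)] (h0 : ∀ n, r 0 ≤ r n)
    (hu : ∀ s, ∃ n, s ≤ r n) (T : Finset (Mer K)) (z : K) : ∃ b : ℕ → K, b 0 = z ∧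
    ∀ (L : Subfield K) (D : Derivation ℤ K K) (C : ℝ), 0 < C → (∀ j, b j ∈ L) → Bd L D C →
    ∃ (R : Subfield (Mer K)) (δ : Mer K → Mer K), (∀ x ∈ T, x ∈ R) ∧
      (∀ x x' : Mer K, (∀ n, Dl L D (r n) x.1 x'.1) → x ∈ R) ∧
      ∀ x ∈ R, ∀ n, Dl L D (r n) x.1 (δ x).1 := by
  choose B B1 B2 using fun (x : Mer K) (n : ℕ) => fr_cnt hK (io K (r n) x)
  obtain ⟨b, hb⟩ := (((T.countable_toSet.biUnion fun x _ => Set.countable_iUnion (B1 x))).insert
    z).exists_eq_range (Set.insert_nonempty _ _)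
  refine ⟨fun n => Nat.casesOn n z b, rfl, fun L D C hC hL hD => ?_⟩
  have one : ∀ n, Dl L D (r n) 1 0 := fun n => by
    simpa [mono_zero] using (G0.mon (L := L) (D := D) (r := r n) 0).gm.dl
  have neg : ∀ n, Dl L D (r n) (-1) 0 := fun n => by
    simpa only [map_neg, map_one, Derivation.map_one_eq_zero, neg_zero, map_zero] using
      (G0.c (D := D) (r := r n) (neg_mem L.one_mem)).gm.dl
  let R : Subfield (Mer K) :=
    { carrier := {x | ∀ n, ∃ x', Dl L D (r n) x.1 x'}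
      mul_mem' := fun a b n => (a n).elim fun _ a => (b n).elim fun _ b => ⟨_, a.mul b⟩
      one_mem' := fun n => ⟨_, one n⟩
      add_mem' := fun a b n => (a n).elim fun _ a => (b n).elim fun _ b => ⟨_, a.add b⟩
      zero_mem' := fun n => ⟨_, by simpa using (one n).add (neg n)⟩
      neg_mem' := fun a n => (a n).elim fun _ a => ⟨_, by simpa using (neg n).mul a⟩
      inv_mem' := fun _ a n => (a n).elim fun _ a => a.inv }
  have key : ∀ x ∈ R, ∃ x' : Mer K, ∀ n, Dl L D (r n) x.1 x'.1 := fun x hx => by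
    obtain ⟨y, hy⟩ := hx 0
    have all : ∀ n, Dl L D (r n) x.1 y := fun n => by
      obtain ⟨y', hy'⟩ := hx n
      rwa [hy.uniq hK hC hD (hy'.res (h0 n))]
    refine ⟨⟨y, fun s _ => ?_⟩, all⟩
    obtain ⟨n, hn⟩ := hu s
    exact ((all n).res hn).range
  choose! δ hδ using key
  refine ⟨R, δ, fun x hx n => ?_, fun x x' h n => ⟨_, h n⟩, hδ⟩
  rw [← Jr_io (r := r n) x]
  refine B2 x n L D C hC hD fun c hc => ?_
  obtain ⟨j, rfl⟩ : c ∈ Set.range b := hb ▸ Set.mem_insert_of_mem _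
    (Set.mem_biUnion (Finset.mem_coe.2 hx) (Set.mem_iUnion_of_mem n hc))
  exact hL (j + 1)

theorem exists_nx : Nonempty (Nx K (Mer K)) := by
  obtain ⟨π, hπ⟩ := NormedField.exists_one_lt_norm K
  let r : ℕ → ℝ := fun n => ‖π‖ ^ (n + 1)
  have hr : ∀ n, Fact (1 ≤ r n) := fun n => ⟨one_le_pow₀ hπ.le⟩
  have hm : ∀ n i, i ≤ n + 1 → 1 ≤ r n * ‖π ^ i‖ ∧ ‖π ^ i‖ ≤ r n := fun n i hi => by
    rw [norm_pow]
    exact ⟨one_le_mul_of_one_le_of_one_le (hr n).out (one_le_pow₀ hπ.le),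
      pow_le_pow_right₀ hπ.le hi⟩
  let q : ∀ n, Ann K (r n) := fun n => ⟨π ^ n, hm n n (by omega)⟩
  let Q : ∀ n, Ann K (r n) := fun n => ⟨π ^ (n + 1), hm n _ le_rfl⟩
  have hq : ∀ n, 1 ≤ ‖(q n).1‖ := fun n => by simpa [q] using one_le_pow₀ hπ.le
  have hQ : ∀ n, ‖(q n).1‖ < ‖(Q n).1‖ := fun n => by
    simpa [q, Q] using pow_lt_pow_right₀ hπ (Nat.lt_succ_self n)
  have h1 : ∀ n, In (q n) 1 := fun n => ⟨by simpa using inv_le_one_of_one_le₀ (hq n),
    by simpa using hq n⟩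
  have hz : ∀ s [Fact (1 ≤ s)], Jr K s (algebraMap _ _ (zf s)) = algebraMap _ _ (zf (K := K) 1) :=
    fun s _ => Jr_alg _
  let z : Mer K := ⟨algebraMap _ _ (zf (K := K) 1), fun s _ => ⟨_, hz s⟩⟩
  have iz : ∀ n, io K (r n) z = algebraMap _ _ (zf (r n)) := fun n =>
    Jr_inj ((Jr_io z).trans (hz _).symm)
  refine ⟨{
    D := DM K
    gs := fun n b => (gv (cond b (q n) (q n).inv)).comap (io K (r n))
    gsK := fun n b c => NNReal.eq ?_
    gsD := fun n b x => ?_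
    P := fun n => {a // In (q n) a}
    a := fun n p => (pv (hq n) (hQ n) p).comap (io K (r n))
    aK := fun n p c => ?_
    res := fun n p x hx => ?_
    aD := fun n p x hx => ?_
    unif := fun n p => ⟨z - algebraMap K _ p.1, ?_, ?_⟩
    wt := fun n p => Phi (hr n).out (q n) (lin _ p.1)
    wt0 := fun n p => Phi_nonneg _ _ (lin_ne (hr n).out _)
    fin := fun n x => ?_
    jen := fun x hx => ⟨2 * Real.log (gv (one le_rfl : Ann K 1) x.1), fun n => ?_⟩
    b := fun n => ⟨1, h1 n⟩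
    wtb := fun C => ?_
    ab := fun n x => ?_
    dep := fun u w n p c e hu hw => dep_fr (hq n) (hQ n) (io K _ u) (io K _ w) p c e
      (fun j => by have := hu j; rwa [Valuation.comap_apply, RingHom.coe_coe, map_sub,
        AlgHom.commutes] at this)
      (fun j => by have := hw j; rwa [Valuation.comap_apply, RingHom.coe_coe, map_sub,
        AlgHom.commutes] at this)
    der := fun T n₀ p₀ => ?_ }⟩
  · change (gv _ (io K _ _) : ℝ) = _
    rw [AlgHom.commutes, IsScalarTower.algebraMap_apply K (An K (r n)), gv_alg, G_c]; rfl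
  · change gv _ (io K _ _) ≤ gv _ (io K _ _)
    rw [io_DM]; exact gv_D _ _
  · change pv _ _ _ (io K _ _) ≤ _
    rw [AlgHom.commutes, IsScalarTower.algebraMap_apply K (An K (r n))]; exact pv_le ..
  · obtain ⟨c, hc⟩ := pv_res _ _ p hx
    exact ⟨c, by change pv _ _ _ (io K _ _) < _; rwa [map_sub, AlgHom.commutes]⟩
  · change pv _ _ _ (io K _ _) ≤ _
    rw [io_DM]; exact pv_D _ _ p hx
  · change pv _ _ _ (io K _ _) = _
    rw [map_sub, iz, AlgHom.commutes, IsScalarTower.algebraMap_apply K (An K (r n)), ← map_sub]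
    exact pv_lin ..
  · change pv _ _ _ (io K _ _) = _
    rw [io_DM, map_sub, iz, AlgHom.commutes, IsScalarTower.algebraMap_apply K (An K (r n)), ← map_sub,
      DF_alg]
    exact pv_one _ _ _ (by rw [← lin, D_lin]; exact Ann.ne (K := K) ⟨p.1, p.2.mem⟩)
  · by_cases hx : x = 0
    · simp [hx]
    · exact (pv_jen (hq n) (hQ n) ((map_ne_zero (io K (r n))).2 hx)).1
  · refine (pv_jen (hq n) (hQ n) ((map_ne_zero (io K (r n))).2 hx)).2.trans ?_
    rw [← Jr_io (r := r n) x]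
    obtain ⟨h, k, -, e⟩ := frac (io K (r n) x)
    simp only [e, map_div₀, Jr_alg, NNReal.coe_div, gv_alg, G_res]
    rfl
  · obtain ⟨n, hn⟩ := exists_nat_gt (C / Real.log ‖π‖)
    rw [div_lt_iff₀ (Real.log_pos hπ)] at hn
    refine ⟨n, hn.trans_le (le_of_eq ?_)⟩
    rw [Phi_lin, norm_one, max_eq_left (hq n), max_eq_right (inv_le_one_of_one_le₀ (hq n))]
    simp [q]
  · have hle : r 0 ≤ r n := pow_le_pow_right₀ hπ.le (by omega)
    change pv _ _ _ (io K _ _) = pv _ _ _ (io K _ _)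
    obtain ⟨h, k, hk, e⟩ := frac (io K (r n) x)
    have e' : io K (r 0) x = algebraMap _ _ (res K hle h) / algebraMap _ _ (res K hle k) :=
      Jr_inj (by
        rw [Jr_io, ← Jr_io (r := r n), e]
        simp only [map_div₀, Jr_alg]
        rfl)
    have inj := res_inj (K := K) (hr 0).out hle
    by_cases h0 : h = 0
    · simp [e, e', h0]
    rw [e, e', map_div₀, map_div₀, pv_alg _ _ _ h0, pv_alg _ _ _ hk,
      pv_alg _ _ _ ((map_ne_zero_iff _ inj).2 h0), pv_alg _ _ _ ((map_ne_zero_iff _ inj).2 hk)]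
    exact congrArg₂ (fun i j : ℕ => exp (-(i : ℤ)) / exp (-(j : ℤ)))
      (mult_res hle (one (hr 0).out) (fin_mult (hr n).out (hq n) (hQ n) (h1 n) h0)).symm
      (mult_res hle (one (hr 0).out) (fin_mult (hr n).out (hq n) (hQ n) (h1 n) hk)).symm
  · obtain ⟨b, b0, hb⟩ := exists_del hK r
      (fun n => pow_le_pow_right₀ hπ.le (by omega)) (fun s => (pow_unbounded_of_one_lt s hπ).imp
        fun n hn => hn.le.trans (pow_le_pow_right₀ hπ.le (by omega))) T p₀.1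
    refine ⟨b, fun L D C hC hL hD => ?_⟩
    obtain ⟨R, δ, r1, r2, r3⟩ := hb L D C hC hL hD
    have zL : p₀.1 ∈ L := b0 ▸ hL 0
    have uq : ∀ {x x' : Mer K}, (∀ n, Dl L D (r n) x.1 x'.1) → x ∈ R ∧ δ x = x' := fun h =>
      ⟨r2 _ _ h, Subtype.ext ((r3 _ (r2 _ _ h) 0).uniq hK hC hD (h 0))⟩
    have hc : ∀ c ∈ L, ∀ n, Dl L D (r n) (algebraMap K (Mer K) c).1
        (algebraMap K (Mer K) (D c)).1 := fun c hc n => by
      have := (G0.c (D := D) (r := r n) hc).gm.dl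
      simp only [AlgHom.commutes] at this
      exact this
    have hz' : ∀ n, Dl L D (r n) z.1 (0 : Mer K).1 := fun n => by
      have := (G0.mon (L := L) (D := D) (r := r n) 1).gm.dl
      simp only [mono_one, map_zero] at this
      exact this
    have up : ∀ x ∈ R, ∀ n, Dl L D (r n) (Jr K _ (io K (r n) x)) (Jr K _ (io K (r n) (δ x))) :=
      fun x hx n => by rw [Jr_io, Jr_io]; exact r3 x hx n
    have ht := uq (x := z + algebraMap K _ (-p₀.1)) (x' := 0 + algebraMap K _ (D (-p₀.1)))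
      fun n => (hz' n).add (hc _ (neg_mem zL) n)
    have et : io K (r n₀) (z + algebraMap K _ (-p₀.1)) = algebraMap _ _ (lin (r n₀) p₀.1) := by
      rw [map_add, iz, AlgHom.commutes, IsScalarTower.algebraMap_apply K (An K (r n₀)), ← map_add,
        map_neg, ← sub_eq_add_neg, lin]
    refine ⟨R, δ, _, D p₀.1 / p₀.1, r1, fun c h => uq (hc c h), fun x hx y hy =>
      ⟨(uq (x' := δ x + δ y) fun n => (r3 x hx n).add (r3 y hy n)).2,
        (uq (x' := x * δ y + y * δ x) fun n => (r3 x hx n).mul (r3 y hy n)).2⟩,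
      fun x hx n b => (up x hx n).gv_le hK hC hD _,
      fun x hx n p h => (up x hx n).reg hK hC hD _ _ p h, ht.1, ?_, ?_⟩
    · change pv _ _ _ (io K _ _) = _
      rw [et]; exact pv_lin ..
    · change pv _ _ _ (io K _ _) < _
      have p0 : p₀.1 ≠ 0 := Ann.ne (K := K) ⟨p₀.1, p₀.2.mem⟩
      have e : algebraMap K (An K (r n₀)) (D (-p₀.1)) + algebraMap K _ (D p₀.1 / p₀.1) * zf _ =
          lin _ p₀.1 * algebraMap K _ (D p₀.1 / p₀.1) := an_ext fun w => by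
        simp only [add_ap, mul_ap, c_ap, zf_ap, lin_ap]
        rw [map_neg]; field_simp; ring
      rw [ht.2, zero_add, map_add, map_mul, io_DM, et, DF_alg, D_lin, AlgHom.commutes,
        AlgHom.commutes, IsScalarTower.algebraMap_apply K (An K (r n₀)),
        IsScalarTower.algebraMap_apply K (An K (r n₀)) _ (_ / _), ← map_mul, ← map_add, e,
        map_mul, map_mul, pv_lin]
      exact (mul_le_of_le_one_right' (pv_le ..)).trans_lt (by decide)

end Pool.Agent.Lib.MP_7b66ee_ag.Cst
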