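import Pool.Agent.Lib.MP_7b66ee_ag.Cst.AbA
import Pool.Agent.Lib.MP_7b66ee_ag.Cst.Nv

/-! Two independent functions take a transcendental value somewhere. -/

namespace Pool.Agent.Lib.MP_7b66ee_ag.Cst

open Filter WithZero Kob
open scoped NNReal

universe u

lemma lin_of_ind {R A : Type*} [CommRing R] [CommRing A] [Algebra R A] {u w : A}
    (h : AlgebraicIndependent R fun o : Option Unit => o.elim w fun _ => u) {M : ℕ}
    (l : Fin M × Fin M → R) (h0 : ∑ i, algebraMap R A (l i) * (u ^ (i.1 : ℕ) * w ^ (i.2 : ℕ)) = 0)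
    (i₀ : Fin M × Fin M) : l i₀ = 0 := by
  classical
  let e : Fin M × Fin M → Option Unit →₀ ℕ := fun i =>
    Finsupp.single (some ()) (i.1 : ℕ) + Finsupp.single none (i.2 : ℕ)
  have he : Function.Injective e := fun i j hij => by
    have h1 := DFunLike.congr_fun hij (some ())
    have h2 := DFunLike.congr_fun hij none
    simp [e] at h1 h2
    exact Prod.ext (Fin.ext h1) (Fin.ext h2)
  have := algebraicIndependent_iff.1 h (∑ i, MvPolynomial.monomial (e i) (l i)) (by
    rw [map_sum, ← h0]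
    refine Finset.sum_congr rfl fun i _ => ?_
    rw [MvPolynomial.aeval_monomial, Finsupp.prod_add_index' (by simp) (by simp [pow_add])]
    simp)
  have := congrArg (MvPolynomial.coeff (e i₀)) this
  simpa [MvPolynomial.coeff_sum, MvPolynomial.coeff_monomial, he.eq_iff] using this

variable {K E : Type u} [NontriviallyNormedField K] [IsUltrametricDist K] [Field E] [Algebra K E]
  (N : Nx K E) (hK : ∀ m : ℕ, m ≠ 0 → ‖(m : K)‖ = 1) (k : Subfield K) (hk : ∀ a ∈ k, ‖a‖ ≤ 1)

include hk in
lemma alg_le {x : K} (hx : IsAlgebraic k x) : ‖x‖ ≤ 1 := int_le_one k hk hx.isIntegral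

include hk in
lemma notMem_clo {e : K} (he : ¬IsAlgebraic k e) :
    e ∉ closure {b : K | IsAlgebraic (Subfield.closure (k : Set K)) b} := by
  rw [Subfield.closure_eq, IsClosed.closure_eq]
  · exact he
  refine Metric.isClosed_of_pairwise_le_dist one_pos fun x hx y hy h => ?_
  have := alg_le k hk (IsAlgebraic.sub hx hy).inv
  rwa [norm_inv, inv_le_one₀ (norm_pos_iff.2 (sub_ne_zero.2 h)), ← dist_eq_norm] at this

include hK hk in
lemma exists_val {u w : E} (hu : ∀ c, u ≠ algebraMap K E c)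
    (h : AlgebraicIndependent k fun o : Option Unit => o.elim w fun _ => u) :
    ∃ (n : ℕ) (p : N.P n) (c : ℕ) (e : K), Vl N.toNev p u c ∧ Vl N.toNev p w e ∧
      N.a n p (N.D u) = 1 ∧ ¬IsAlgebraic k e := by
  classical
  have := charZero_of hK
  obtain ⟨n, hn⟩ := many N.toNev hK hu
  have hD : N.D u ≠ 0 := fun e => (const_of_D N.toNev e).elim hu
  let c₀ := hn.natEmbedding
  choose p₀ hp₀ using fun j => (c₀ j).2
  have ci : ∀ i j : ℕ, i ≠ j → ‖(i : K) - j‖ = 1 := fun i j hij => by
    rcases lt_or_gt_of_ne hij with h | h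
    · rw [norm_sub_rev, ← Nat.cast_sub h.le, hK _ (by omega)]
    · rw [← Nat.cast_sub h.le, hK _ (by omega)]
  have pi : Function.Injective p₀ := fun i j hij => by
    by_contra hc
    have h1 := (N.a n (p₀ j)).map_sub_lt (hij ▸ hp₀ i) (hp₀ j)
    rw [sub_sub_sub_cancel_left, ← map_sub, N.a_c _ (sub_ne_zero.2 fun e =>
      hc (c₀.injective (Subtype.ext (Nat.cast_injective e))).symm)] at h1
    exact lt_irrefl _ h1
  have inf : {j | log (N.a n (p₀ j) w) = 0 ∧ log (N.a n (p₀ j) (N.D u)) = 0}.Infinite := by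
    refine Set.infinite_of_finite_compl ((((N.fin n w).union (N.fin n (N.D u))).preimage
      pi.injOn).subset fun j hj => ?_)
    exact not_and_or.1 hj
  let s := inf.natEmbedding
  let p : ℕ → N.P n := fun j => p₀ (s j)
  let c : ℕ → ℕ := fun j => c₀ (s j)
  have cinj : Function.Injective c := fun i j e =>
    s.injective (Subtype.ext (c₀.injective (Subtype.ext e)))
  have pinj : Function.Injective p := fun i j e => s.injective (Subtype.ext (pi e))
  have one : ∀ {x : ℤᵐ⁰}, log x = 0 → x ≠ 0 → x = 1 := fun h h0 => by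
    rw [← exp_log h0, h, exp_zero]
  choose e he using fun j => N.res n (p j) w (by
    by_cases h0 : N.a n (p j) w = 0
    · rw [h0]; exact zero_le
    · exact (one (s j).2.1 h0).le)
  by_contra hc
  push Not at hc
  have alg : ∀ j, IsAlgebraic k (e j) := fun j => hc n (p j) (c j) (e j) (hp₀ _) (he j)
    (one (s j).2.2 (by simpa using hD))
  obtain ⟨M, l, i₀, l1, hl⟩ := N.dep u w n p (fun j => c j) e (fun j => hp₀ _) he
    (fun i j hij => ci _ _ (cinj.ne hij)) fun j =>
      ⟨IsUltrametricDist.norm_natCast_le_one _ _, alg_le k hk (alg j)⟩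
  let k' := algebraicClosure k K
  have nk : ∀ x : k', ‖(x : K)‖ ≤ 1 := fun x => alg_le k hk (mem_algebraicClosure_iff.1 x.2)
  let W : Submodule k' (Fin M × Fin M → k') :=
    { carrier := {v | ‖∑ i, l i * (v i : K)‖ < 1}
      add_mem' := fun {x y} hx hy => by
        simp only [Set.mem_ofPred_eq, Pi.add_apply, IntermediateField.coe_add, mul_add,
          Finset.sum_add_distrib]
        exact (IsUltrametricDist.norm_add_le_max _ _).trans_lt (max_lt hx hy)
      zero_mem' := by simp
      smul_mem' := fun a x hx => by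
        simp only [Set.mem_ofPred_eq, Pi.smul_apply, smul_eq_mul, IntermediateField.coe_mul,
          mul_left_comm _ (a : K), ← Finset.mul_sum, norm_mul]
        exact (mul_le_of_le_one_left (norm_nonneg _) (nk a)).trans_lt hx }
  obtain ⟨f, f0, hf⟩ := W.exists_le_ker_of_lt_top (lt_top_iff_ne_top.2 fun e => by
    have : ‖∑ i, l i * ((Pi.single i₀ 1 : Fin M × Fin M → k') i : K)‖ < 1 :=
      (Submodule.eq_top_iff'.1 e) (Pi.single i₀ 1)
    rw [Finset.sum_eq_single i₀ (fun i _ hi => by simp [Pi.single_eq_of_ne hi]) (by simp)] at this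
    simp [l1] at this)
  let m : Fin M × Fin M → k' := fun i => f (Pi.single i 1)
  have h0 : ∑ i, algebraMap k' E (m i) * (u ^ (i.1 : ℕ) * w ^ (i.2 : ℕ)) = 0 := by
    by_contra q0
    refine (hl.image pinj.injOn) ((N.fin n (∑ i, algebraMap k' E (m i) *
      (u ^ (i.1 : ℕ) * w ^ (i.2 : ℕ)))).subset ?_)
    rintro _ ⟨j, hj, rfl⟩ h1
    let v : Fin M × Fin M → k' := fun i =>
      (c j : k') ^ (i.1 : ℕ) * (⟨e j, mem_algebraicClosure_iff.2 (alg j)⟩ : k') ^ (i.2 : ℕ)
    have h2 : f v = 0 := hf (show ‖∑ i, l i * (v i : K)‖ < 1 by simpa [v] using hj)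
    have h3 := Vl.sum (N := N.toNev) (p := p j) Finset.univ fun i : Fin M × Fin M =>
      (Vl.c (m i : K)).mul ((Vl.pow (c := (c j : K)) (hp₀ _) i.1).mul (Vl.pow (he j) i.2))
    have h4 : ∑ i, (m i : K) * ((c j : K) ^ (i.1 : ℕ) * e j ^ (i.2 : ℕ)) = 0 := by
      rw [LinearMap.pi_apply_eq_sum_univ] at h2
      have := congrArg (algebraMap k' K) h2
      rw [map_sum, map_zero] at this
      rw [← this]
      refine Finset.sum_congr rfl fun i _ => ?_
      rw [smul_eq_mul, map_mul, mul_comm]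
      refine congrArg₂ _ (by simp [v]) (congrArg (fun y => ((f y : k') : K)) (funext fun i' => ?_))
      simp [Pi.single_apply, eq_comm]
    rw [h4, Vl, map_zero, sub_zero] at h3
    exact h3.ne (one h1 ((N.a n (p j)).ne_zero_iff.2 q0))
  refine f0 (LinearMap.pi_ext' fun i => LinearMap.ext_ring ?_)
  exact lin_of_ind (h.extendScalars k') m h0 i

end Pool.Agent.Lib.MP_7b66ee_ag.Cst
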