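import Mathlib

/-! Definitions used in the statement. -/

namespace Pool.Agent.Lib.MP_7b66ee_ag.Cst

open AlgebraicGeometry CategoryTheory
open scoped TensorProduct

universe u

noncomputable section

/-- the tensor lies in the O-module spanned by the products of m forms da ∧ db, a, b in O -/
def Reg {F M : Type u} [Field F] [AddCommGroup M] [Module F M] (d : F → M)
    (O : ValuationSubring F) {m : ℕ} (t : ⨂[F] _ : Fin m, ⋀[F]^2 M) : Prop :=
  t ∈ AddSubgroup.closure {η | ∃ (c : F) (a : Fin m → Fin 2 → F),
    c ∈ O ∧ (∀ i j, a i j ∈ O) ∧ η = c • PiTensorProduct.tprod F fun i =>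
      exteriorPower.ιMulti F 2 fun j => d (a i j)}

/-- the bundle of 2-forms is big: the everywhere regular tensors t which stay regular after
multiplication by the elements of S span all m-th powers of rational 2-forms -/
def Big (k : Type u) {F M : Type u} [Field k] [Field F] [Algebra k F] [AddCommGroup M]
    [Module F M] (d : F → M) : Prop :=
  ∃ (m : ℕ) (S : Finset F), 0 < m ∧ Algebra.IsAlgebraic (IntermediateField.adjoin k (S : Set F)) F ∧
    ∀ w : ⋀[F]^2 M, (PiTensorProduct.tprod F fun _ : Fin m => w) ∈ Submodule.span F
      {t | ∀ O : ValuationSubring F, (∀ c : k, algebraMap k F c ∈ O) →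
        Reg d O t ∧ ∀ s ∈ S, Reg d O (s • t)}

/-- the constants in the residue field of a point of a K-scheme -/
def cst {K : Type u} [Field K] (X : Over (Spec (.of K))) (x : X.left) :
    K →+* X.left.residueField x :=
  (Spec.preimage (X.left.fromSpecResidueField x ≫ X.hom)).hom

end

end Pool.Agent.Lib.MP_7b66ee_ag.Cst
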