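import Pool.Agent.Lib.MP_7b66ee_ag.Cst.AbB
import Pool.Agent.Lib.MP_7b66ee_ag.Cst.Defs

/-! The abstract form of the theorem. -/

namespace Pool.Agent.Lib.MP_7b66ee_ag.Cst

open Filter WithZero Kob
open scoped NNReal TensorProduct

universe u

variable {K E : Type u} [NontriviallyNormedField K] [IsUltrametricDist K] [IsAlgClosed K]
  [CompleteSpace K] [Field E] [Algebra K E]
  (N : Nx K E) (hK : ∀ m : ℕ, m ≠ 0 → ‖(m : K)‖ = 1) (k : Subfield K) (hk : ∀ a ∈ k, ‖a‖ ≤ 1)
  {F : Type u} [Field F] [Algebra k F] [Algebra F E] [IsScalarTower k F E]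

include hK hk in
lemma exists_pair [Algebra.EssFiniteType k F] (h2 : 2 ≤ Algebra.trdeg k F) {u : F}
    (hu : ∀ c, algebraMap F E u ≠ algebraMap K E c) : ∃ δ : Derivation k F E,
      (∀ x n b, N.gs n b (δ x) ≤ N.gs n b (algebraMap F E x)) ∧
      (∀ x n p, N.a n p (algebraMap F E x) ≤ 1 → N.a n p (δ x) ≤ 1) ∧
      ∃ w, N.D (algebraMap F E u) * δ w - δ u * N.D (algebraMap F E w) ≠ 0 := by
  classical
  have kF : ∀ c : k, algebraMap F E (algebraMap k F c) = algebraMap K E c := fun c =>
    (IsScalarTower.algebraMap_apply k F E c).symm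
  have tu : Transcendental k u := fun h => by
    have h1 : IsAlgebraic K (algebraMap F E u) := (h.algebraMap (A := E)).tower_top K
    obtain ⟨c, hc⟩ := minpoly.mem_range_of_degree_eq_one K _
      (IsAlgClosed.degree_eq_one_of_irreducible K (minpoly.irreducible h1.isIntegral))
    exact hu c hc.symm
  obtain ⟨w, hw⟩ : ∃ w : F, Transcendental (Algebra.adjoin k (Set.range fun _ : Unit => u)) w := by
    by_contra hc
    push Not at hc
    have : Algebra.IsAlgebraic (Algebra.adjoin k (Set.range fun _ : Unit => u)) F :=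
      ⟨fun x => not_not.1 (hc x)⟩
    have := h2.trans (Algebra.IsAlgebraic.trdeg_le_cardinalMk k (Set.range fun _ : Unit => u))
    simp at this
  have ind := (AlgebraicIndependent.option_iff.2
    ⟨algebraicIndependent_unique_type_iff.2 tu, hw⟩).map' (f := IsScalarTower.toAlgHom k F E)
      (algebraMap F E).injective
  obtain ⟨n₀, p₀, c₀, e, v1, v2, hD, he⟩ := exists_val N hK k hk (w := algebraMap F E w) hu (by
    convert ind using 1
    ext (_ | _) <;> rfl)
  obtain ⟨T, hT⟩ := IntermediateField.fg_top k F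
  obtain ⟨b, hb⟩ := N.der (T.image (algebraMap F E)) n₀ p₀
  obtain ⟨L, d, C, -, C0, kL, eL, bL, d0, d1, hd⟩ := exists_der hK _ (notMem_clo k hk he) b
  obtain ⟨R, δ, t, l, r1, r2, r3, r4, r5, r6, r7, r8⟩ := hb L d C C0 bL hd
  have FR : ∀ x : F, algebraMap F E x ∈ R := fun x => by
    let R' : IntermediateField k F := (R.comap (algebraMap F E)).toIntermediateField fun c => by
      rw [Subfield.mem_comap, kF]; exact (r2 _ (kL c.2)).1
    have : IntermediateField.adjoin k (T : Set F) ≤ R' := IntermediateField.adjoin_le_iff.2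
      fun y hy => r1 _ (Finset.mem_image_of_mem _ hy)
    rw [hT] at this
    exact this IntermediateField.mem_top
  obtain ⟨κ, hκ⟩ := NormedField.exists_lt_norm K C
  have κ0 : κ ≠ 0 := norm_pos_iff.1 (C0.trans hκ)
  have chain : ∀ x ∈ R, ∀ c ∈ L, Vl N.toNev p₀ x c →
      Vl N.toNev p₀ (δ x + algebraMap K E l * N.D x) (d c) := fun x hx c hc h => by
    have t0 : t ≠ 0 := fun e => by rw [e, map_zero] at r7; exact exp_ne_zero r7.symm
    obtain ⟨y, hy⟩ : ∃ y, x = t * y + algebraMap K E c := ⟨(x - algebraMap K E c) / t, by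
      field_simp; ring⟩
    have yR : y ∈ R := by
      rw [show y = (x - algebraMap K E c) / t by rw [hy]; field_simp; ring]
      exact div_mem (sub_mem hx (r2 c hc).1) r6
    have y1 : N.a n₀ p₀ y ≤ 1 := by
      have := le_exp_neg h
      rwa [hy, add_sub_cancel_right, map_mul, r7, mul_le_iff_le_one_right exp_pos] at this
    rw [Vl, hy, (r3 _ (mul_mem r6 yR) _ (r2 c hc).1).1, (r3 _ r6 _ yR).2, (r2 c hc).2, map_add,
      Derivation.map_algebraMap, Derivation.leibniz, smul_eq_mul, smul_eq_mul,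
      show t * δ y + y * δ t + algebraMap K E (d c) + algebraMap K E l * (t * N.D y + y * N.D t + 0)
        - algebraMap K E (d c) = (δ y + algebraMap K E l * N.D y) * t +
          y * (δ t + algebraMap K E l * N.D t) by ring]
    refine (N.a n₀ p₀).map_add_lt ?_ ?_ <;> rw [map_mul]
    · refine (mul_le_of_le_one_left' ((N.a n₀ p₀).map_add_le (r5 y yR _ _ y1) ?_)).trans_lt
        (by rw [r7]; decide)
      rw [map_mul]
      exact mul_le_one' (N.aK _ _ _) (N.aD _ _ _ y1)
    · exact (mul_le_of_le_one_left' y1).trans_lt r8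
  refine ⟨Derivation.mk'
    { toFun := fun x => algebraMap K E κ⁻¹ * δ (algebraMap F E x)
      map_add' := fun x y => by rw [map_add, (r3 _ (FR x) _ (FR y)).1, mul_add]
      map_smul' := fun c x => by
        rw [Algebra.smul_def, map_mul, (r3 _ (FR _) _ (FR x)).2, kF, (r2 _ (kL c.2)).2, d0 _ c.2,
          map_zero, mul_zero, add_zero, RingHom.id_apply, Algebra.smul_def, mul_left_comm]
        rfl } fun x y => ?_, fun x n b => ?_, fun x n p h => ?_, w, ?_⟩
  · simp only [LinearMap.coe_mk, AddHom.coe_mk, map_mul, (r3 _ (FR x) _ (FR y)).2, Algebra.smul_def]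
    ring
  · change N.gs n b (algebraMap K E κ⁻¹ * δ (algebraMap F E x)) ≤ _
    rw [map_mul, N.gsK, ← NNReal.coe_le_coe, NNReal.coe_mul, coe_nnnorm, norm_inv,
      inv_mul_le_iff₀ (C0.trans hκ)]
    exact (r4 _ (FR x) n b).trans (mul_le_mul_of_nonneg_right hκ.le (NNReal.coe_nonneg _))
  · change N.a n p (algebraMap K E κ⁻¹ * δ (algebraMap F E x)) ≤ 1
    rw [map_mul]
    exact mul_le_one' (N.aK _ _ _) (r5 _ (FR x) n p h)
  · change N.D (algebraMap F E u) * (algebraMap K E κ⁻¹ * δ (algebraMap F E w)) -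
      algebraMap K E κ⁻¹ * δ (algebraMap F E u) * N.D (algebraMap F E w) ≠ 0
    have a1 := chain _ (FR u) _ (natCast_mem L c₀) v1
    have a2 := chain _ (FR w) _ eL v2
    rw [Derivation.map_natCast, Vl, map_zero, sub_zero] at a1
    rw [d1, Vl, map_one] at a2
    intro h0
    have h1 : N.D (algebraMap F E u) = (δ (algebraMap F E u) + algebraMap K E l *
        N.D (algebraMap F E u)) * N.D (algebraMap F E w) - N.D (algebraMap F E u) *
        (δ (algebraMap F E w) + algebraMap K E l * N.D (algebraMap F E w) - 1) := by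
      have : algebraMap K E κ * algebraMap K E κ⁻¹ = 1 := by
        rw [← map_mul, mul_inv_cancel₀ κ0, map_one]
      linear_combination algebraMap K E κ * h0 - (N.D (algebraMap F E u) * δ (algebraMap F E w) -
        δ (algebraMap F E u) * N.D (algebraMap F E w)) * this
    refine lt_irrefl (1 : ℤᵐ⁰) (hD.symm.trans_lt ?_)
    rw [h1]
    refine (N.a n₀ p₀).map_sub_lt ?_ ?_ <;> rw [map_mul]
    · exact (mul_le_of_le_one_right' (N.aD _ _ _ v2.le)).trans_lt a1
    · rwa [hD, one_mul]

include N hK hk in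
theorem abs_main [Algebra.EssFiniteType k F] (h2 : 2 ≤ Algebra.trdeg k F)
    (hB : Big k (KaehlerDifferential.D k F)) (u : F) :
    ∃ c, algebraMap F E u = algebraMap K E c := by
  classical
  by_contra hu
  push Not at hu
  have kF : ∀ c : k, algebraMap F E (algebraMap k F c) = algebraMap K E c := fun c =>
    (IsScalarTower.algebraMap_apply k F E c).symm
  obtain ⟨δ, d1, d2, w, hw⟩ := exists_pair N hK k hk h2 hu
  obtain ⟨m, S, -, hS, hB⟩ := hB
  let θ : Derivation k F E := (N.D.restrictScalars k).compAlgebraMap F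
  let g : Ω[F⁄k] →ₗ[F] Fin 2 → E :=
    LinearMap.pi ![θ.liftKaehlerDifferential, δ.liftKaehlerDifferential]
  let ψ : ⋀[F]^2 Ω[F⁄k] →ₗ[F] E := exteriorPower.alternatingMapLinearEquiv
    { ((Matrix.detRowAlternating : (Fin 2 → E) [⋀^Fin 2]→ₗ[E] E).toMultilinearMap.restrictScalars
        F).compLinearMap fun _ => g with
      map_eq_zero_of_eq' := fun v i j h hij =>
        (Matrix.detRowAlternating : (Fin 2 → E) [⋀^Fin 2]→ₗ[E] E).map_eq_zero_of_eq _
          (congrArg g h) hij }
  have hψ : ∀ a : Fin 2 → F, ψ (exteriorPower.ιMulti F 2 fun j => KaehlerDifferential.D k F (a j)) =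
      N.D (algebraMap F E (a 0)) * δ (a 1) - δ (a 0) * N.D (algebraMap F E (a 1)) := fun a => by
    refine (exteriorPower.alternatingMapLinearEquiv_apply_ιMulti _ _).trans ?_
    change Matrix.det (Matrix.of fun j => g (KaehlerDifferential.D k F (a j))) = _
    rw [Matrix.det_fin_two]
    simp [g, θ]
  let Ψ : (⨂[F] _ : Fin m, ⋀[F]^2 Ω[F⁄k]) →ₗ[F] E :=
    PiTensorProduct.lift ((MultilinearMap.mkPiAlgebra F (Fin m) E).compLinearMap fun _ => ψ)
  have hΨ : ∀ v, Ψ (PiTensorProduct.tprod F v) = ∏ i, ψ (v i) := fun v => by simp [Ψ]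
  have reg : ∀ O : ValuationSubring E, (∀ x ∈ O, N.D x ∈ O) →
      (∀ x, algebraMap F E x ∈ O → δ x ∈ O) → ∀ t,
      Reg (KaehlerDifferential.D k F) (O.comap (algebraMap F E)) t → Ψ t ∈ O := fun O o1 o2 t ht => by
    induction ht using AddSubgroup.closure_induction with
    | mem _ hx =>
      obtain ⟨c, a, hc, ha, rfl⟩ := hx
      rw [map_smul, hΨ, Algebra.smul_def]
      refine mul_mem hc (prod_mem fun i _ => ?_)
      rw [hψ]
      exact sub_mem (mul_mem (o1 _ (ha _ _)) (o2 _ (ha _ _))) (mul_mem (o2 _ (ha _ _)) (o1 _ (ha _ _)))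
    | zero => simp
    | add _ _ _ _ a b => rw [map_add]; exact add_mem a b
    | neg _ _ a => rw [map_neg]; exact neg_mem a
  have cst : ∀ t, (∀ O : ValuationSubring F, (∀ c : k, algebraMap k F c ∈ O) →
      Reg (KaehlerDifferential.D k F) O t) → ∃ c, Ψ t = algebraMap K E c := fun t ht =>
    liouville N.toNev
      (fun n p => reg (N.a n p).valuationSubring (N.aD n p) (fun x => d2 x n p) t
        (ht _ fun c => by
          change N.a n p (algebraMap F E _) ≤ 1
          rw [kF]; exact N.aK _ _ _))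
      fun n b => reg (N.gs n b).valuationSubring (fun x h => (N.gsD n b x).trans h)
        (fun x h => (d1 x n b).trans h) t (ht _ fun c => by
          change N.gs n b (algebraMap F E _) ≤ 1
          rw [kF, N.gsK]; exact hk _ c.2)
  obtain ⟨t, ht, t0⟩ : ∃ t, (∀ O : ValuationSubring F, (∀ c : k, algebraMap k F c ∈ O) →
      Reg (KaehlerDifferential.D k F) O t ∧ ∀ s ∈ S, Reg (KaehlerDifferential.D k F) O (s • t)) ∧
      Ψ t ≠ 0 := by
    by_contra hc
    push Not at hc
    have := (Submodule.span_le (p := LinearMap.ker Ψ)).2 hc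
      (hB (exteriorPower.ιMulti F 2 fun j => KaehlerDifferential.D k F (![u, w] j)))
    rw [LinearMap.mem_ker, hΨ, hψ] at this
    obtain ⟨i, -, hi⟩ := Finset.prod_eq_zero_iff.1 this
    exact hw hi
  obtain ⟨c₀, h0⟩ := cst t fun O hO => (ht O hO).1
  let F₀ : IntermediateField k F :=
    ((algebraMap K E).fieldRange.comap (algebraMap F E)).toIntermediateField fun c => ⟨c, (kF c).symm⟩
  have le : IntermediateField.adjoin k (S : Set F) ≤ F₀ := IntermediateField.adjoin_le_iff.2
    fun s hs => by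
      obtain ⟨c, hc⟩ := cst (s • t) fun O hO => (ht O hO).2 s hs
      refine ⟨c / c₀, ?_⟩
      rw [map_div₀, ← hc, ← h0, map_smul, Algebra.smul_def, mul_div_cancel_right₀ _ t0]
  obtain ⟨P, hP, P0⟩ := (hS.1 u).isIntegral
  have : IsIntegral (algebraMap K E).fieldRange (algebraMap F E u) := by
    let j : IntermediateField.adjoin k (S : Set F) →+* (algebraMap K E).fieldRange :=
      ((algebraMap F E).comp (algebraMap _ F)).codRestrict _ fun x => le x.2
    refine ⟨P.map j, hP.map j, ?_⟩
    rw [Polynomial.eval₂_map]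
    exact (Polynomial.hom_eval₂ P (algebraMap _ F) (algebraMap F E) u).symm.trans
      (by rw [P0, map_zero])
  have alg : IsAlgClosed (algebraMap K E).fieldRange :=
    IsAlgClosed.of_ringEquiv K _ (algebraMap K E).rangeRestrictFieldEquiv
  obtain ⟨⟨_, c, rfl⟩, hc⟩ := minpoly.mem_range_of_degree_eq_one _ _
    (IsAlgClosed.degree_eq_one_of_irreducible _ (minpoly.irreducible this))
  exact hu c hc.symm

end Pool.Agent.Lib.MP_7b66ee_ag.Cst
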