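import Pool.Agent.Lib.MP_7b66ee_ag.Cst.Gam
import Pool.Agent.Lib.MP_7b66ee_ag.AnC

/-! The coefficientwise derivation on analytic and meromorphic functions. -/

namespace Pool.Agent.Lib.MP_7b66ee_ag.Cst

open Filter Topology IsUltrametricDist Kob

universe u

noncomputable section

variable {K : Type u} [NontriviallyNormedField K] {r : ℝ}

/-- the closure of the graph -/
def Gm (L : Subfield K) (D : Derivation ℤ K K) (r : ℝ) (h h' : An K r) : Prop :=
  ∀ ε > 0, ∃ p p', G0 L D r p p' ∧ (∀ z, ‖h.1 z - p.1 z‖ ≤ ε) ∧ ∀ z, ‖h'.1 z - p'.1 z‖ ≤ ε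

variable {L : Subfield K} {D : Derivation ℤ K K}

lemma G0.gm {p p' : An K r} (h : G0 L D r p p') : Gm L D r p p' :=
  fun ε hε => ⟨p, p', h, fun z => by simpa using hε.le, fun z => by simpa using hε.le⟩

lemma near_mul (f g : An K r) {ε : ℝ} (hε : 0 < ε) : ∃ δ > 0, ∀ p s : An K r,
    (∀ z, ‖f.1 z - p.1 z‖ ≤ δ) → (∀ z, ‖g.1 z - s.1 z‖ ≤ δ) →
      ∀ z, ‖(f * g).1 z - (p * s).1 z‖ ≤ ε := by
  obtain ⟨A, A0, hA⟩ := bdd f
  obtain ⟨B, B0, hB⟩ := bdd g
  refine ⟨min 1 (ε / (A + B + 1)), by positivity, fun p s h1 h2 z => ?_⟩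
  set δ := min 1 (ε / (A + B + 1))
  have d1 : δ ≤ 1 := min_le_left _ _
  have d2 : δ * (A + B + 1) ≤ ε := (le_div_iff₀ (by positivity)).1 (min_le_right _ _)
  have a : ‖s.1 z‖ ≤ B + 1 := by
    linarith [norm_le_norm_add_norm_sub (g.1 z) (s.1 z), h2 z, hB z]
  rw [show (f * g).1 z - (p * s).1 z = f.1 z * (g.1 z - s.1 z) + (f.1 z - p.1 z) * s.1 z by
    simp only [mul_ap]; ring]
  refine (norm_add_le _ _).trans ?_
  rw [norm_mul, norm_mul]
  have b := mul_le_mul (hA z) (h2 z) (norm_nonneg _) A0.le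
  have c := mul_le_mul (h1 z) a (norm_nonneg _) ((norm_nonneg _).trans (h1 z))
  linarith

lemma Gm.ext {L' : Subfield K} {D' : Derivation ℤ K K} (hL : L ≤ L') (hD : ∀ x ∈ L, D' x = D x)
    {h h' : An K r} (a : Gm L D r h h') : Gm L' D' r h h' := fun ε hε => by
  obtain ⟨p, p', h1, h2⟩ := a ε hε
  exact ⟨p, p', h1.ext hL hD, h2⟩

lemma Gm.res {s : ℝ} (hs : r ≤ s) {h h' : An K s} (a : Gm L D s h h') :
    Gm L D r (res K hs h) (res K hs h') := fun ε hε => by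
  obtain ⟨p, p', h1, h2, h3⟩ := a ε hε
  exact ⟨_, _, h1.res hs, fun z => h2 _, fun z => h3 _⟩

variable [IsUltrametricDist K]

lemma near_add {a b c d : K} {ε : ℝ} (h1 : ‖a - c‖ ≤ ε) (h2 : ‖b - d‖ ≤ ε) :
    ‖a + b - (c + d)‖ ≤ ε := by
  rw [show a + b - (c + d) = (a - c) + (b - d) by ring]
  exact (norm_add_le_max _ _).trans (max_le h1 h2)

lemma Gm.add {h h' k k' : An K r} (a : Gm L D r h h') (b : Gm L D r k k') :
    Gm L D r (h + k) (h' + k') := fun ε hε => by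
  obtain ⟨p, p', h1, h2, h3⟩ := a ε hε
  obtain ⟨s, s', k1, k2, k3⟩ := b ε hε
  exact ⟨_, _, h1.add k1, fun z => near_add (h2 z) (k2 z), fun z => near_add (h3 z) (k3 z)⟩

lemma Gm.mul {h h' k k' : An K r} (a : Gm L D r h h') (b : Gm L D r k k') :
    Gm L D r (h * k) (h * k' + k * h') := fun ε hε => by
  obtain ⟨δ₁, p1, q1⟩ := near_mul h k hε
  obtain ⟨δ₂, p2, q2⟩ := near_mul h k' hε
  obtain ⟨δ₃, p3, q3⟩ := near_mul k h' hε
  have d1 : min δ₁ (min δ₂ δ₃) ≤ δ₁ := min_le_left _ _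
  have d2 : min δ₁ (min δ₂ δ₃) ≤ δ₂ := (min_le_right _ _).trans (min_le_left _ _)
  have d3 : min δ₁ (min δ₂ δ₃) ≤ δ₃ := (min_le_right _ _).trans (min_le_right _ _)
  obtain ⟨p, p', h1, h2, h3⟩ := a (min δ₁ (min δ₂ δ₃)) (by positivity)
  obtain ⟨s, s', k1, k2, k3⟩ := b (min δ₁ (min δ₂ δ₃)) (by positivity)
  exact ⟨_, _, h1.mul k1, q1 _ _ (fun z => (h2 z).trans d1) fun z => (k2 z).trans d1,
    fun z => near_add (q2 _ _ (fun z => (h2 z).trans d2) (fun z => (k3 z).trans d2) z)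
      (q3 _ _ (fun z => (k2 z).trans d3) (fun z => (h3 z).trans d3) z)⟩

lemma Gm.sub {h h' k k' : An K r} (a : Gm L D r h h') (b : Gm L D r k k') :
    Gm L D r (h - k) (h' - k') := by
  convert a.add ((G0.c (neg_mem L.one_mem)).gm.mul b) using 1 <;>
    simp only [map_neg, map_one, Derivation.map_one_eq_zero, neg_zero, map_zero] <;> ring

variable [IsAlgClosed K] [CompleteSpace K] (hK : ∀ m : ℕ, m ≠ 0 → ‖(m : K)‖ = 1) {C : ℝ}
  (hC : 0 < C) (hD : Bd L D C)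

section
include hK hC hD

lemma Gm.bd {h h' : An K r} (a : Gm L D r h h') (q : Ann K r) : G q h' ≤ C * G q h := by
  refine le_of_forall_pos_le_add fun ε hε => ?_
  obtain ⟨p, p', h1, h2, h3⟩ := a (ε / (C + 1)) (by positivity)
  have e1 := G_near (q := q) h3
  have e2 : G q p ≤ G q h + ε / (C + 1) := G_near fun z => by rw [norm_sub_rev]; exact h2 z
  have e3 := h1.bd hK hC.le hD q
  have e4 := mul_le_mul_of_nonneg_left e2 hC.le
  have e5 : ε / (C + 1) * (C + 1) = ε := div_mul_cancel₀ _ (by positivity)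
  linarith

lemma Gm.uniq {h h₁ h₂ : An K r} (a : Gm L D r h h₁) (b : Gm L D r h h₂) : h₁ = h₂ :=
  an_ext fun z => by
    have := (le_G (h₁ - h₂) (q := z) rfl).trans ((a.sub b).bd hK hC hD z)
    rw [sub_self, G_zero, mul_zero, norm_le_zero_iff, sub_ap] at this
    exact sub_eq_zero.1 this

lemma Gm.exi {h : An K r}
    (a : ∀ ε > 0, ∃ p p', G0 L D r p p' ∧ ∀ z, ‖h.1 z - p.1 z‖ ≤ ε) : ∃ h', Gm L D r h h' := by
  choose p p' h1 h2 using fun n : ℕ => a (1 / ((n : ℝ) + 1)) (by positivity)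
  obtain ⟨h', hh⟩ := an_lim p' C fun n m hnm w => by
    refine (le_G (p' n - p' m) (q := w) rfl).trans ((((h1 n).sub (h1 m)).bd hK hC.le hD w).trans
      (mul_le_mul_of_nonneg_left (G_le fun v _ => ?_) hC.le))
    rw [sub_ap, show (p n).1 v - (p m).1 v = (h.1 v - (p m).1 v) - (h.1 v - (p n).1 v) by ring]
    exact (sub_le_max _ _).trans (max_le ((h2 m v).trans (Nat.one_div_le_one_div hnm)) (h2 n v))
  refine ⟨h', fun ε hε => ?_⟩
  obtain ⟨n, hn⟩ := exists_nat_one_div_lt (show 0 < ε / (C + 1) by positivity)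
  rw [lt_div_iff₀ (by positivity)] at hn
  have : 0 < 1 / ((n : ℝ) + 1) := by positivity
  refine ⟨_, _, h1 n, fun z => (h2 n z).trans ?_, fun z => (hh n z).trans ?_⟩ <;> nlinarith

lemma Gm.div (hr : 1 ≤ r) (z : Ann K r) (hz : z.1 ∈ L) {h h' : An K r} (a : Gm L D r h h')
    (h0 : h.1 z = 0) :
    ∃ k k', Gm L D r k k' ∧ h = lin r z.1 * k ∧ h' = lin r z.1 * k' - algebraMap K _ (D z.1) * k := by
  obtain ⟨k, rfl⟩ := lin_dvd.2 h0
  obtain ⟨k', hk⟩ := Gm.exi hK hC hD (h := k) fun ε hε => by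
    obtain ⟨p, p', h1, h2, -⟩ := a (ε / r) (by positivity)
    obtain ⟨-, l, l', h3, h4⟩ := h1.div z hz
    refine ⟨l, l', h3, fun w => (est' (a := z.1) (k := k - l) (c := ε / r) (fun v => ?_) w).trans
      (mul_div_cancel₀ _ (by positivity)).le⟩
    have e : lin r z.1 * (k - l) = (lin r z.1 * k - p) + algebraMap K _ (p.1 z) := by
      linear_combination h4
    rw [e, add_ap, c_ap]
    refine (norm_add_le_max _ _).trans (max_le (h2 v) ?_)
    have := h2 z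
    rwa [h0, zero_sub, norm_neg] at this
  refine ⟨k, k', hk, rfl, a.uniq hK hC hD ?_⟩
  have := ((G0.mon 1).sub (G0.c (r := r) (D := D) hz)).gm.mul hk
  rw [mono_one] at this
  rw [lin]
  convert this using 1
  ring

end

variable [hr : Fact (1 ≤ r)]

omit [CompleteSpace K] in
lemma jr_res {s : ℝ} [Fact (1 ≤ s)] (hs : r ≤ s) (g : An K s) : jr K r (res K hs g) = jr K s g := rfl

omit [CompleteSpace K] in
lemma Jr_jr (g : An K r) : Jr K r (algebraMap _ _ g) = jr K r g := Jr_alg g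

omit hr in
/-- the graph of the derivation on quotients -/
def Dl (L : Subfield K) (D : Derivation ℤ K K) (r : ℝ) [Fact (1 ≤ r)] (x x' : Fr K 1) : Prop :=
  ∃ g g' h h', Gm L D r g g' ∧ Gm L D r h h' ∧ h ≠ 0 ∧
  x * jr K r h = jr K r g ∧ x' * jr K r h + x * jr K r h' = jr K r g'

section
omit [CompleteSpace K]

lemma Gm.dl {g g' : An K r} (a : Gm L D r g g') : Dl L D r (jr K r g) (jr K r g') :=
  ⟨g, g', 1, 0, a, by simpa [mono_zero] using (G0.mon (L := L) (D := D) (r := r) 0).gm,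
    one_ne_zero, by simp, by simp⟩

lemma Dl.add {x x' y y' : Fr K 1} (a : Dl L D r x x') (b : Dl L D r y y') :
    Dl L D r (x + y) (x' + y') := by
  obtain ⟨g, g', h, h', a1, a2, a3, a4, a5⟩ := a
  obtain ⟨k, k', l, l', b1, b2, b3, b4, b5⟩ := b
  refine ⟨_, _, _, _, (a1.mul b2).add (b1.mul a2), a2.mul b2, mul_ne_zero a3 b3, ?_, ?_⟩ <;>
    simp only [map_add, map_mul, ← a4, ← a5, ← b4, ← b5] <;> ring

lemma Dl.mul {x x' y y' : Fr K 1} (a : Dl L D r x x') (b : Dl L D r y y') :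
    Dl L D r (x * y) (x * y' + y * x') := by
  obtain ⟨g, g', h, h', a1, a2, a3, a4, a5⟩ := a
  obtain ⟨k, k', l, l', b1, b2, b3, b4, b5⟩ := b
  refine ⟨_, _, _, _, a1.mul b1, a2.mul b2, mul_ne_zero a3 b3, ?_, ?_⟩ <;>
    simp only [map_add, map_mul, ← a4, ← a5, ← b4, ← b5] <;> ring

lemma jr_ne {h : An K r} (h0 : h ≠ 0) : jr K r h ≠ 0 := (map_ne_zero_iff _ jr_inj).2 h0

lemma Dl.inv {x x' : Fr K 1} (a : Dl L D r x x') : ∃ y', Dl L D r x⁻¹ y' := by
  by_cases x0 : x = 0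
  · exact ⟨x', by simpa [x0] using a⟩
  obtain ⟨g, g', h, h', a1, a2, a3, a4, a5⟩ := a
  refine ⟨-x' / x ^ 2, _, _, _, _, a2, a1, fun e => ?_, ?_, ?_⟩
  · rw [e, map_zero] at a4
    exact mul_ne_zero x0 (jr_ne a3) a4
  · rw [← a4]; field_simp
  · rw [← a4, ← a5]; field_simp; ring

lemma Dl.res {s : ℝ} [Fact (1 ≤ s)] (hs : r ≤ s) {x x' : Fr K 1} (a : Dl L D s x x') :
    Dl L D r x x' := by
  obtain ⟨g, g', h, h', a1, a2, a3, a4, a5⟩ := a
  exact ⟨_, _, _, _, a1.res hs, a2.res hs, (map_ne_zero_iff _ (res_inj hr.out hs)).2 a3, a4, a5⟩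

lemma Dl.range {x x' : Fr K 1} (a : Dl L D r x x') : x' ∈ (Jr K r).fieldRange := by
  obtain ⟨g, g', h, h', -, -, a3, a4, a5⟩ := a
  have m : ∀ g, jr K r g ∈ (Jr K r).fieldRange := fun g => ⟨_, Jr_jr g⟩
  have h0 := jr_ne a3
  rw [show x' = (jr K r g' - jr K r g / jr K r h * jr K r h') / jr K r h by
    rw [← a4, ← a5]; field_simp; ring]
  exact div_mem (sub_mem (m _) (mul_mem (div_mem (m _) (m _)) (m _))) (m _)

lemma Dl.up {y y' : Fr K r} (a : Dl L D r (Jr K r y) (Jr K r y')) :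
    ∃ g g' h h', Gm L D r g g' ∧ Gm L D r h h' ∧ h ≠ 0 ∧ y * algebraMap _ _ h = algebraMap _ _ g ∧
      y' * algebraMap _ _ h + y * algebraMap _ _ h' = algebraMap _ _ g' := by
  obtain ⟨g, g', h, h', a1, a2, a3, a4, a5⟩ := a
  exact ⟨g, g', h, h', a1, a2, a3, Jr_inj (by simpa only [map_mul, Jr_jr] using a4),
    Jr_inj (by simpa only [map_add, map_mul, Jr_jr] using a5)⟩

end

include hK hC hD

lemma Dl.uniq {x x₁ x₂ : Fr K 1} (a : Dl L D r x x₁) (b : Dl L D r x x₂) : x₁ = x₂ := by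
  obtain ⟨g, g', h, h', a1, a2, a3, a4, a5⟩ := a
  obtain ⟨k, k', l, l', b1, b2, b3, b4, b5⟩ := b
  have e : g * l = k * h := jr_inj (by simp only [map_mul, ← a4, ← b4]; ring)
  have e' := congrArg (jr K r) ((a1.mul b2).uniq hK hC hD (e ▸ b1.mul a2))
  simp only [map_add, map_mul, ← a4, ← a5, ← b4, ← b5] at e'
  refine mul_right_cancel₀ (mul_ne_zero (jr_ne a3) (jr_ne b3)) ?_
  linear_combination e'

lemma Dl.gv_le {y y' : Fr K r} (a : Dl L D r (Jr K r y) (Jr K r y')) (q : Ann K r) :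
    (gv q y' : ℝ) ≤ C * gv q y := by
  obtain ⟨g, g', h, h', a1, a2, a3, a4, a5⟩ := a.up
  have h0 := G_pos hr.out a3 q
  have e1 : (gv q y : ℝ) * G q h = G q g := by
    rw [← gv_alg, ← gv_alg, ← a4, map_mul, NNReal.coe_mul]
  have e2 : (gv q y' : ℝ) * G q h ≤ max (G q g') (gv q y * G q h') := by
    rw [← gv_alg, ← gv_alg, ← gv_alg, ← NNReal.coe_mul, ← NNReal.coe_mul, ← NNReal.coe_max,
      NNReal.coe_le_coe, ← map_mul, ← map_mul, eq_sub_of_add_eq a5]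
    exact Valuation.map_sub _ _ _
  refine le_of_mul_le_mul_right (e2.trans (max_le ?_ ?_)) h0
  · rw [mul_assoc, e1]; exact a1.bd hK hC hD q
  · exact (mul_le_mul_of_nonneg_left (a2.bd hK hC hD q) (gv q y).coe_nonneg).trans_eq (by ring)

lemma Dl.reg {q Q : Ann K r} (hq : 1 ≤ ‖q.1‖) (hQ : ‖q.1‖ < ‖Q.1‖) (z : {a // In q a})
    {y y' : Fr K r} (a : Dl L D r (Jr K r y) (Jr K r y')) (hy : pv hq hQ z y ≤ 1) :
    pv hq hQ z y' ≤ 1 := by
  obtain ⟨g, g', h, h', a1, a2, a3, a4, a5⟩ := a.up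
  obtain ⟨L', D', l1, l2, l3, l4⟩ := full_step hK hC (lt_add_one C) hD z.1
  replace a1 := a1.ext l1 l3
  replace a2 := a2.ext l1 l3
  obtain ⟨n, hn⟩ := fin_mult hr.out hq hQ z.2 a3
  generalize n + 1 = n at hn
  clear a3
  induction n generalizing g g' h h' with
  | zero => simp at hn
  | succ n ih =>
    by_cases h0 : h.1 ⟨z.1, z.2.mem⟩ = 0
    · have C1 : 0 < C + 1 := by linarith
      obtain ⟨k, k', b1, rfl, rfl⟩ := Gm.div hK C1 l4 hr.out ⟨z.1, z.2.mem⟩ l2 a2 h0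
      have g0 : g.1 ⟨z.1, z.2.mem⟩ = 0 := by
        by_contra hc
        have := pv_one hq hQ z hc
        rw [← a4, map_mul, map_mul, map_mul, pv_lin] at this
        exact absurd this ((mul_le_of_le_one_left' hy).trans_lt
          ((mul_le_of_le_one_right' (pv_le ..)).trans_lt (by decide))).ne
      obtain ⟨l, l', c1, rfl, rfl⟩ := Gm.div hK C1 l4 hr.out ⟨z.1, z.2.mem⟩ l2 a1 g0
      have l0 : algebraMap _ (Fr K r) (lin r z.1) ≠ 0 :=
        (map_ne_zero_iff _ (IsFractionRing.injective _ _)).2 (lin_ne hr.out _)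
      simp only [map_mul, map_sub] at a4 a5
      have e : y * algebraMap _ _ k = algebraMap _ _ l :=
        mul_left_cancel₀ l0 (by linear_combination a4)
      refine ih l l' k k' e (mul_left_cancel₀ l0 ?_) c1 b1 fun hd => hn ?_
      · linear_combination a5 + algebraMap _ (Fr K r) (algebraMap K (An K r) (D' z.1)) * e
      · rw [pow_succ']; exact mul_dvd_mul_left _ hd
    · have := congrArg (pv hq hQ z) (eq_sub_of_add_eq a5)
      rw [map_mul, pv_one hq hQ z h0, mul_one] at this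
      rw [this]
      refine Valuation.map_sub_le _ (pv_le ..) ?_
      rw [map_mul]
      exact mul_le_one' hy (pv_le ..)

end

end Pool.Agent.Lib.MP_7b66ee_ag.Cst
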