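import Pool.Agent.Lib.MP_7b66ee_ag.Kob.Ser

/-! The graph of the coefficientwise derivation on annuli. -/

namespace Pool.Agent.Lib.MP_7b66ee_ag.Cst

open Filter Topology IsUltrametricDist Kob

universe u

noncomputable section

variable {K : Type u} [NontriviallyNormedField K] {r : ℝ}

def mono (r : ℝ) (i : ℤ) : An K r := ⟨fun z => z.1 ^ i, lau_mem (zpow_lau i)⟩

lemma mono_ap (i : ℤ) (z : Ann K r) : (mono r i).1 z = z.1 ^ i := rfl

lemma mono_add (i j : ℤ) : mono (K := K) r (i + j) = mono r i * mono r j :=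
  an_ext fun z => zpow_add₀ z.ne i j

lemma mono_zero : mono (K := K) r 0 = 1 := an_ext fun _ => zpow_zero _
lemma mono_one : mono (K := K) r 1 = zf r := an_ext fun _ => zpow_one _
lemma mono_neg : mono (K := K) r (-1) = zi r := an_ext fun _ => zpow_neg_one _

def lp (r : ℝ) : (ℤ →₀ K) →ₗ[K] An K r := Finsupp.linearCombination K (mono r)

lemma lp_single (i : ℤ) (c : K) : lp r (Finsupp.single i c) = algebraMap K _ c * mono r i := by
  simp [lp, Algebra.smul_def]

lemma lp_ap (a : ℤ →₀ K) (z : Ann K r) : (lp r a).1 z = ∑ i ∈ a.support, a i * z.1 ^ i := by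
  simp only [lp, Finsupp.linearCombination_apply, Finsupp.sum, AddSubmonoidClass.coe_finsetSum,
    Finset.sum_apply]
  rfl

/-- pairs (p, p') of Laurent polynomials, p with coefficients in L, p' the coefficientwise
derivative -/
def G0 (L : Subfield K) (D : Derivation ℤ K K) (r : ℝ) (p p' : An K r) : Prop :=
  ∃ a : ℤ →₀ L, p = lp r (a.mapRange (↑) rfl) ∧
    p' = lp r (a.mapRange (fun c : L => D c) (map_zero D))

variable {L : Subfield K} {D : Derivation ℤ K K}

lemma G0.single (i : ℤ) (c : L) :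
    G0 L D r (algebraMap K _ (c : K) * mono r i) (algebraMap K _ (D c) * mono r i) :=
  ⟨Finsupp.single i c, by rw [Finsupp.mapRange_single, lp_single],
    by rw [Finsupp.mapRange_single, lp_single]⟩

lemma G0.zero : G0 L D r 0 0 := ⟨0, by simp, by simp⟩

lemma G0.add {p p' s s' : An K r} (h : G0 L D r p p') (k : G0 L D r s s') :
    G0 L D r (p + s) (p' + s') := by
  obtain ⟨a, rfl, rfl⟩ := h
  obtain ⟨b, rfl, rfl⟩ := k
  refine ⟨a + b, ?_, ?_⟩
  · rw [Finsupp.mapRange_add (by simp), map_add]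
  · rw [Finsupp.mapRange_add (by simp), map_add]

lemma G0.ind {Q : An K r → An K r → Prop} (h0 : Q 0 0)
    (h1 : ∀ (i : ℤ) (c : L),
      Q (algebraMap K _ (c : K) * mono r i) (algebraMap K _ (D c) * mono r i))
    (ha : ∀ p p' s s', Q p p' → Q s s' → Q (p + s) (p' + s')) {p p' : An K r}
    (h : G0 L D r p p') : Q p p' := by
  obtain ⟨a, rfl, rfl⟩ := h
  induction a using Finsupp.induction_linear with
  | zero => simpa using h0
  | add a b h1 h2 =>
    rw [Finsupp.mapRange_add (by simp), Finsupp.mapRange_add (by simp), map_add, map_add]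
    exact ha _ _ _ _ h1 h2
  | single i c =>
    rw [Finsupp.mapRange_single, Finsupp.mapRange_single, lp_single, lp_single]
    exact h1 i c

lemma G0.mul {p p' s s' : An K r} (h : G0 L D r p p') (k : G0 L D r s s') :
    G0 L D r (p * s) (p * s' + s * p') := by
  refine G0.ind (Q := fun p p' => G0 L D r (p * s) (p * s' + s * p')) (by simpa using G0.zero)
    (fun i c => ?_) (fun p p' t t' h1 h2 => ?_) h
  · refine G0.ind (Q := fun s s' => G0 L D r (_ * s) (_ * s' + s * _)) (by simpa using G0.zero)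
      (fun j d => ?_) (fun p p' t t' h1 h2 => ?_) k
    · convert G0.single (D := D) (r := r) (i + j) (c * d) using 1
      · rw [mono_add, Subfield.coe_mul, map_mul]; ring
      · rw [mono_add, Subfield.coe_mul, D.leibniz, smul_eq_mul, smul_eq_mul, map_add, map_mul,
          map_mul]; ring
    · convert h1.add h2 using 1 <;> ring
  · convert h1.add h2 using 1 <;> ring

lemma G0.c {c : K} (hc : c ∈ L) : G0 L D r (algebraMap K _ c) (algebraMap K _ (D c)) := by
  simpa [mono_zero] using G0.single (D := D) (r := r) 0 ⟨c, hc⟩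

lemma G0.mon (i : ℤ) : G0 L D r (mono r i) 0 := by
  simpa using G0.single (L := L) (D := D) (r := r) i 1

lemma G0.sub {p p' s s' : An K r} (h : G0 L D r p p') (k : G0 L D r s s') :
    G0 L D r (p - s) (p' - s') := by
  convert h.add ((G0.c (neg_mem L.one_mem)).mul k) using 1 <;>
    simp only [map_neg, map_one, Derivation.map_one_eq_zero, neg_zero, map_zero] <;> ring

lemma G0.lau {p p' : An K r} (h : G0 L D r p p') : p'.1 ∈ Lau K r :=
  G0.ind (Q := fun _ p' => p'.1 ∈ Lau K r) (zero_mem _)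
    (fun i _ => mul_mem ((Lau K r).algebraMap_mem _) (zpow_lau i))
    (fun _ _ _ _ h1 h2 => add_mem h1 h2) h

lemma G0.ext {L' : Subfield K} {D' : Derivation ℤ K K} (hL : L ≤ L') (hD : ∀ x ∈ L, D' x = D x)
    {p p' : An K r} (h : G0 L D r p p') : G0 L' D' r p p' :=
  G0.ind (Q := G0 L' D' r) G0.zero
    (fun i c => by simpa only [hD c c.2] using G0.single (D := D') (r := r) i ⟨c.1, hL c.2⟩)
    (fun _ _ _ _ => G0.add) h

lemma G0.res {s : ℝ} (hs : r ≤ s) {p p' : An K s} (h : G0 L D s p p') :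
    G0 L D r (res K hs p) (res K hs p') :=
  G0.ind (Q := fun p p' => G0 L D r (Lib.MP_7b66ee_ag.res K hs p) (Lib.MP_7b66ee_ag.res K hs p'))
    (by simpa using G0.zero)
    (fun i c => by
      simp only [map_mul, AlgHom.commutes]; exact G0.single (D := D) (r := r) i c)
    (fun _ _ _ _ h1 h2 => by simpa only [map_add] using h1.add h2) h

/-- division by z - a -/
lemma G0.div (z : Ann K r) (hz : z.1 ∈ L) {p p' : An K r} (h : G0 L D r p p') :
    p.1 z ∈ L ∧ ∃ k k', G0 L D r k k' ∧ p = algebraMap K _ (p.1 z) + lin r z.1 * k := by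
  have key : ∀ i : ℤ, ∃ k k', G0 L D r k k' ∧
      mono r i = algebraMap K _ (z.1 ^ i) + lin r z.1 * k := fun i => by
    have z0 := z.ne
    induction i using Int.induction_on with
    | zero => exact ⟨0, 0, G0.zero, by simp [mono_zero]⟩
    | succ i ih =>
      obtain ⟨k, k', h1, h2⟩ := ih
      refine ⟨_, _, (h1.mul (G0.mon 1)).add (G0.c (zpow_mem hz i)), ?_⟩
      rw [mono_add, h2, zpow_add₀ z0, zpow_one, map_mul, mono_one, lin]; ring
    | pred i ih =>
      obtain ⟨k, k', h1, h2⟩ := ih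
      refine ⟨_, _, (h1.mul (G0.mon (-1))).sub
        ((G0.c (zpow_mem hz (-(i : ℤ) - 1))).mul (G0.mon (-1))), ?_⟩
      have e : algebraMap K (An K r) (z.1 ^ (-(i : ℤ))) =
          algebraMap K _ (z.1 ^ (-(i : ℤ) - 1)) * algebraMap K _ z.1 := by
        rw [← map_mul, zpow_sub_one₀ z0, inv_mul_cancel_right₀ z0]
      rw [sub_eq_add_neg, mono_add, h2, e, mono_neg, lin, ← sub_eq_add_neg]
      linear_combination (algebraMap K (An K r) (z.1 ^ (-(i : ℤ) - 1))) * zf_zi (K := K) (r := r)
  refine G0.ind (Q := fun p _ => p.1 z ∈ L ∧ ∃ k k', G0 L D r k k' ∧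
    p = algebraMap K _ (p.1 z) + lin r z.1 * k) ⟨zero_mem _, 0, 0, G0.zero, by simp⟩
    (fun i c => ⟨mul_mem c.2 (zpow_mem hz i), ?_⟩) ?_ h
  · obtain ⟨k, k', h1, h2⟩ := key i
    refine ⟨_, _, (G0.c c.2).mul h1, ?_⟩
    rw [mul_ap, c_ap, mono_ap, map_mul]
    linear_combination algebraMap K (An K r) (c : K) * h2
  · rintro p - s - ⟨a1, k, k', a2, a3⟩ ⟨b1, l, l', b2, b3⟩
    refine ⟨add_mem a1 b1, _, _, a2.add b2, ?_⟩
    rw [add_ap, map_add]
    linear_combination a3 + b3

lemma lau_fin {p : An K r} (hp : p.1 ∈ Lau K r) : ∃ T : Set K, T.Finite ∧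
    ∀ (L : Subfield K) (D : Derivation ℤ K K), T ⊆ L → ∃ p', G0 L D r p p' := by
  refine lau_add (Q := fun p => ∃ T : Set K, T.Finite ∧
    ∀ (L : Subfield K) (D : Derivation ℤ K K), T ⊆ L → ∃ p', G0 L D r p p') ?_ ?_ ?_ ?_ ?_ p hp
  · exact fun c => ⟨{c}, Set.finite_singleton c, fun L D h => ⟨_, G0.c (h rfl)⟩⟩
  · exact ⟨∅, Set.finite_empty, fun L D _ => ⟨_, mono_one (K := K) (r := r) ▸ G0.mon 1⟩⟩
  · exact ⟨∅, Set.finite_empty, fun L D _ => ⟨_, mono_neg (K := K) (r := r) ▸ G0.mon (-1)⟩⟩
  all_goals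
    rintro f g ⟨S, a1, a2⟩ ⟨T, b1, b2⟩
    refine ⟨S ∪ T, a1.union b1, fun L D h => ?_⟩
    obtain ⟨f', hf⟩ := a2 L D (Set.subset_union_left.trans h)
    obtain ⟨g', hg⟩ := b2 L D (Set.subset_union_right.trans h)
  exacts [⟨_, hf.add hg⟩, ⟨_, hf.mul hg⟩]

variable [IsUltrametricDist K] [IsAlgClosed K] [CompleteSpace K]

lemma D_mono (i : ℤ) : Dr K r (mono r i) = algebraMap K _ (i : K) * mono r i := by
  have e1 : Dr K r (zf r) = zf r := Subtype.ext Df_zf
  have e2 : Dr K r (zi r) = -zi r := by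
    have := (Dr K r).leibniz (zf r) (zi r)
    rw [zf_zi, Derivation.map_one_eq_zero, e1, smul_eq_mul, smul_eq_mul] at this
    linear_combination (-zi r) * this - (Dr K r (zi r) + zi r) * zf_zi (K := K) (r := r)
  induction i using Int.induction_on with
  | zero => simp [mono_zero]
  | succ i ih =>
    rw [mono_add, Derivation.leibniz, ih, mono_one, e1]
    simp only [smul_eq_mul, Int.cast_add, Int.cast_one, map_add, map_one]; ring
  | pred i ih =>
    rw [sub_eq_add_neg, mono_add, Derivation.leibniz, ih, mono_neg, e2]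
    simp only [smul_eq_mul, Int.cast_add, Int.cast_neg, Int.cast_one, map_add, map_neg, map_one]
    ring

variable (hK : ∀ m : ℕ, m ≠ 0 → ‖(m : K)‖ = 1)
include hK

omit [IsUltrametricDist K] [IsAlgClosed K] [CompleteSpace K] in
lemma norm_int {m : ℤ} (hm : m ≠ 0) : ‖(m : K)‖ = 1 := by
  obtain ⟨n, rfl | rfl⟩ := m.eq_nat_or_neg
  · simpa using hK n (by simpa using hm)
  · simpa using hK n (by simpa using hm)

lemma coef_le (q : Ann K r) (a : ℤ →₀ K) (i : ℤ) : ‖a i‖ * ‖q.1‖ ^ i ≤ G q (lp r a) := by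
  classical
  induction hn : (a.support.erase i).card generalizing a with
  | zero =>
    have : a = Finsupp.single i (a i) := Finsupp.ext fun j => by
      by_cases h : j = i
      · simp [h]
      · rw [Finsupp.single_eq_of_ne h]
        by_contra hc
        have : j ∈ a.support.erase i := by simp [h, hc]
        simp [Finset.card_eq_zero.1 hn] at this
    conv_rhs => rw [this, lp_single]
    have := le_G (algebraMap K _ (a i) * mono r i) (q := q) (w := q) rfl
    rwa [mul_ap, c_ap, mono_ap, norm_mul, norm_zpow] at this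
  | succ n ih =>
    obtain ⟨j, hj⟩ := Finset.card_pos.1 (show 0 < (a.support.erase i).card by omega)
    have ji := (Finset.mem_erase.1 hj).1
    have : CharZero K := charZero_of hK
    let a' : ℤ →₀ K := Finsupp.onFinset a.support (fun l => ((l - j : ℤ) : K) * a l)
      fun l h => Finsupp.mem_support_iff.2 (right_ne_zero_of_mul h)
    have e : lp r a' = Dr K r (lp r a) + algebraMap K _ (-(j : K)) * lp r a := by
      rw [lp, Finsupp.linearCombination_apply_of_mem_supported K (s := a.support)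
        (Finsupp.support_onFinset_subset), Finsupp.linearCombination_apply, Finsupp.sum, map_sum,
        Finset.mul_sum, ← Finset.sum_add_distrib]
      refine Finset.sum_congr rfl fun l _ => ?_
      rw [Derivation.map_smul, D_mono]
      simp only [Finsupp.onFinset_apply, Algebra.smul_def, Int.cast_sub, map_mul, map_sub,
        map_neg]
      ring
    have h := ih a' (by
      have : a'.support.erase i = (a.support.erase i).erase j := by
        ext l
        simp only [a', Finset.mem_erase, Finsupp.mem_support_iff, Finsupp.onFinset_apply, ne_eq,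
          mul_eq_zero, Int.cast_eq_zero, sub_eq_zero]
        tauto
      rw [this, Finset.card_erase_of_mem hj, hn]; rfl)
    rw [e] at h
    simp only [a', Finsupp.onFinset_apply, norm_mul, norm_int hK (sub_ne_zero.2 ji.symm),
      one_mul] at h
    refine h.trans ((G_add _ _ _).trans (max_le (G_D _ _) ?_))
    rw [G_mul, G_c, norm_neg]
    exact mul_le_of_le_one_left (G_nonneg _ _) (norm_intCast_le_one K j)

lemma G0.bd {C : ℝ} (hC : 0 ≤ C) (hD : Bd L D C) {p p' : An K r} (h : G0 L D r p p')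
    (q : Ann K r) : G q p' ≤ C * G q p := by
  obtain ⟨a, rfl, rfl⟩ := h
  refine G_le fun w hw => ?_
  rw [lp_ap]
  refine norm_sum_le_of_forall_le_of_nonneg (mul_nonneg hC (G_nonneg _ _)) fun i _ => ?_
  rw [norm_mul, norm_zpow, hw, Finsupp.mapRange_apply]
  refine (mul_le_mul_of_nonneg_right (hD _ (a i).2) (by positivity)).trans ?_
  rw [mul_assoc]
  refine mul_le_mul_of_nonneg_left ?_ hC
  simpa using coef_le hK q (a.mapRange (↑) rfl) i

end

end Pool.Agent.Lib.MP_7b66ee_ag.Cst
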