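import Pool.Agent.Lib.MP_7b66ee_ag.Cst.AbC

/-! Analytic maps from the multiplicative group and constant varieties. -/

namespace Pool.Agent.Lib.MP_7b66ee_ag.Cst

open AlgebraicGeometry CategoryTheory IsLocalRing

universe u

lemma fac' {E : Type u} [Field E] {X : Scheme.{u}} (g : Spec (.of E) ⟶ X) {x : X}
    (hx : g (closedPoint E) = x) :
    ∃ φ : X.residueField x ⟶ .of E, Spec.map φ ≫ X.fromSpecResidueField x = g := by
  subst hx
  exact ⟨_, Scheme.descResidueField_stalkClosedPointTo_fromSpecResidueField E X g⟩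

theorem main {K : Type u} [NontriviallyNormedField K] [IsUltrametricDist K] [CompleteSpace K]
    [IsAlgClosed K] [CharZero K] (k : Subfield K) (hk : ∀ a ∈ k, ‖a‖ ≤ 1)
    (X : Over (Spec (.of K))) (f : AnMap K X) :
    ∃ x : X.left, IsGenericPoint x (closure (⋃ r, Set.range (f.map r))) ∧
      ∀ (F : Type u) [Field F] [Algebra k F] [Algebra.EssFiniteType k F]
        (φ : F →+* X.left.residueField x), (∀ c : k, φ (algebraMap k F c) = cst X x c) →
        2 ≤ Algebra.trdeg k F → Big k (KaehlerDifferential.D k F) →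
        ∀ y, ∃ c : K, φ y = cst X x c := by
  let g := fun (r : ℝ) [Fact (1 ≤ r)] =>
    Spec.map (CommRingCat.ofHom (algebraMap (An K r) (Fr K r))) ≫ f.map r
  have hg : ∀ (r : ℝ) [h : Fact (1 ≤ r)],
      Spec.map (CommRingCat.ofHom (Jr K r).toRingHom) ≫ g r = g 1 := fun r h => by
    simp only [g, ← f.compat 1 r h.out, ← Spec.map_comp_assoc]
    congr 2
    exact CommRingCat.hom_ext (RingHom.ext Jr_alg)
  let x := g 1 (closedPoint _)
  have hx : ∀ (r : ℝ) [Fact (1 ≤ r)], g r (closedPoint _) = x := fun r _ => by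
    simp only [x, ← hg r, Scheme.Hom.comp_apply]
    exact congrArg _ (Subsingleton.elim (α := PrimeSpectrum (Fr K r)) _ _)
  have sp : ∀ r p, x ⤳ f.map r p := fun r p => by
    by_cases h : 1 ≤ r
    · have := Fact.mk h
      rw [← hx r]
      refine Specializes.map ((PrimeSpectrum.le_iff_specializes _ _).1 fun a ha => ?_)
        (f.map r).continuous
      have : algebraMap (An K r) (Fr K r) a = 0 := by
        by_contra hc
        exact ha (Ne.isUnit hc)
      rw [(map_eq_zero_iff _ (IsFractionRing.injective _ _)).1 this]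
      exact zero_mem _
    · refine absurd ((Ideal.eq_top_iff_one _).2 ?_) p.2.ne_top
      rw [show (1 : An K r) = 0 from Subtype.ext (funext fun z => absurd z.2 fun ⟨a, b⟩ => by
        nlinarith [norm_nonneg z.1])]
      exact zero_mem _
  refine ⟨x, subset_antisymm (closure_mono ?_) (closure_minimal ?_ isClosed_closure),
    fun F _ _ _ ψ hψ h2 hB y => ?_⟩
  · exact Set.singleton_subset_iff.2 (Set.mem_iUnion.2 ⟨1, _, rfl⟩)
  · exact Set.iUnion_subset fun r _ ⟨p, hp⟩ => hp ▸ (sp r p).mem_closure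
  let := resAlg X x
  choose φ hφ using fun (r : ℝ) (_ : Fact (1 ≤ r)) => fac' (g r) (hx r)
  have e1 : Spec.preimage (X.left.fromSpecResidueField x ≫ X.hom) ≫ φ 1 inferInstance =
      CommRingCat.ofHom (algebraMap K (Fr K 1)) := Spec.map_injective (by
    rw [Spec.map_comp, Spec.map_preimage, ← Category.assoc, hφ, Category.assoc, f.comm,
      ← Spec.map_comp]; rfl)
  have e2 : ∀ r [h : Fact (1 ≤ r)], φ r h ≫ CommRingCat.ofHom (Jr K r).toRingHom =
      φ 1 inferInstance := fun r h =>
    Spec.map_injective ((cancel_mono (X.left.fromSpecResidueField x)).1 (by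
      rw [Spec.map_comp, Category.assoc, hφ, hφ, hg]))
  let ι : X.left.residueField x →ₐ[K] Mer K := AlgHom.codRestrict
    ⟨(φ 1 inferInstance).hom, fun c => congrArg (·.hom c) e1⟩ (Mer K).toSubalgebra
    fun z r h => ⟨φ r h z, congrArg (·.hom z) (e2 r)⟩
  have hK : ∀ m : ℕ, m ≠ 0 → ‖(m : K)‖ = 1 := fun m hm => by
    have := hk _ (inv_mem (natCast_mem k m))
    rw [norm_inv, inv_le_one₀ (norm_pos_iff.2 (Nat.cast_ne_zero.2 hm))] at this
    exact le_antisymm (hk _ (natCast_mem k m)) this
  obtain ⟨N⟩ := exists_nx hK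
  let := (ι.toRingHom.comp ψ).toAlgebra
  have : IsScalarTower k F (Mer K) := .of_algebraMap_eq fun c =>
    ((congrArg ι (hψ c)).trans (ι.commutes c)).symm
  exact (abs_main N hK k hk h2 hB y).imp fun c hc => ι.injective (hc.trans (ι.commutes c).symm)

end Pool.Agent.Lib.MP_7b66ee_ag.Cst
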